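import Pool.Agent.H22.WB.Four
import Pool.Agent.H22.W.Sym
import Pool.Agent.H14.V.FourW

/-!
# WB Uni: Brody curves in affine surfaces of log general type
-/

set_option autoImplicit false

open Topology Filter MvPolynomial Metric

noncomputable section

namespace Pool.Agent.H22.WB

open Pool.Agent.H17 (PN VanishesAt HolomorphicInto)
open Pool.Agent.H62.FC (Homog)
open Pool.Agent.H62.SA (locVar OnBd)
open Pool.Agent.H17BP (Surface)
open Pool.Agent.H17LG.Variety (FunField IsLogGeneralType)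
open Pool.Agent.H13.SM (conTan cone)
open Pool.Agent.H36.BP (EN fs wd isCone_transport)
open Pool.Agent.H14.PP (IsCone)
open Pool.Agent.H17EF (projVar coneE LE)
open Pool.Agent.H62.EF (Charts)
open Pool.Agent.H92.TH (SymDiff)
open Pool.Agent.H14.V (IsLift boundedDistortion brodyCurves IsNull TangentTo)
open Pool.Agent.H22.W (PseudoLength tan_entire symLength symLength_zero)
open Pool.Agent.H5.BD (BC)
open Pool.Agent.H22.WL (evF vanishesAt_lift mem_locVar_prod prod_hom NoCurves)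

variable {N : ℕ} {P : Ideal (MvPolynomial (Fin (N + 1)) ℂ)} {s : ℕ} {G : Fin s → MvPolynomial (Fin (N + 1)) ℂ} {d : Fin s → ℕ}

section

variable [P.IsPrime] {z : Fin 2 → FunField P}

/-- curves of bounded distortion in the complement -/
theorem no_boundedDistortion (hP : Homog P) (hz : IsTranscendenceBasis ℂ z)
    (hsm : ∀ y : Fin (N + 1) → ℂ, y ≠ 0 → (∀ Q ∈ P, eval y Q = 0) → Module.finrank ℂ (conTan P y) ≤ 3)
    (hG : ∀ i, (G i).IsHomogeneous (d i)) (hd : ∑ i, d i ≠ 0) (hGP : ∀ i, G i ∉ P)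
    (hgt : IsLogGeneralType (K := FunField P) (k := 2) (OnBd P fun _ : Fin 1 => ∏ i, G i)) {c L : ℝ} (hc : 0 < c) {f : ℂ → PN N}
    (hf : f ∈ boundedDistortion (locVar P fun _ : Fin 1 => ∏ i, G i) c L) : False := by
  obtain ⟨hfU, F, hF, hFb⟩ := hf
  have hL : 0 < L := lt_of_lt_of_le hc ((hFb 0).1.trans (hFb 0).2)
  have hFB : F ∈ BC (coneE P) c L := ⟨hF.1, fun z => (hF.mem_iff hP z).1 (mem_locVar_prod.1 (hfU z)).1, hFb⟩
  obtain ⟨w, hw⟩ := no_bc_proj hP hz hsm (prod_hom hG) hd (prod_notMem hGP) hgt hc hL hFB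
  unfold evF at hw
  rw [map_prod, Finset.prod_eq_zero_iff] at hw
  obtain ⟨i, -, hi⟩ := hw
  exact (mem_locVar_prod.1 (hfU w)).2 i ((vanishesAt_lift hF (hG i) w).2 hi)

/-- **Brody curves in the complement have length zero.** -/
theorem brody_null (hP : Homog P) (hz : IsTranscendenceBasis ℂ z)
    (hsm : ∀ y : Fin (N + 1) → ℂ, y ≠ 0 → (∀ Q ∈ P, eval y Q = 0) → Module.finrank ℂ (conTan P y) ≤ 3)
    (hG : ∀ i, (G i).IsHomogeneous (d i)) (hd : ∑ i, d i ≠ 0) (hGP : ∀ i, G i ∉ P)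
    (hgt : IsLogGeneralType (K := FunField P) (k := 2) (OnBd P fun _ : Fin 1 => ∏ i, G i)) (n : PseudoLength (coneE P)) {L : ℝ}
    {f : ℂ → PN N} (hf : f ∈ brodyCurves (locVar P fun _ : Fin 1 => ∏ i, G i) L) : IsNull n f := by
  have hS : Surface (cone P) := Pool.Agent.H13.SM.surface_cone hP hz fun y hy => hsm y hy.1 hy.2
  have hX : IsCone (coneE P) := isCone_transport (LE N) hS
  have hch : Charts (coneE P) := Pool.Agent.H17EF.charts hS
  obtain ⟨hfU, F, hF, hFL⟩ := hf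
  have hFX : ∀ z, F z ∈ coneE P := fun z => (hF.mem_iff hP z).1 (mem_locVar_prod.1 (hfU z)).1
  have hconst := Pool.Agent.H22.W.const_brody hX hch n hF.1 hFX hFL
  by_cases hb : n.toFun (F 0) (deriv F 0) = 0
  · exact ⟨F, hF, fun z => by rw [hconst z 0, hb]⟩
  · exfalso
    have hb' : 0 < n.toFun (F 0) (deriv F 0) := lt_of_le_of_ne (n.nonneg _ _ (tan_entire hF.1 hFX 0)) (Ne.symm hb)
    obtain ⟨c, hc, hlow⟩ := Pool.Agent.H22.W.exists_lower hX hch n hb'
    exact no_boundedDistortion hP hz hsm hG hd hGP hgt hc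
      ⟨hfU, F, hF, fun z => ⟨hlow F hF.1 hFX (fun z => hconst z 0) z, hFL z⟩⟩

/-- curves and symmetric differentials -/
theorem exists_symLength (hP : Homog P) (hz : IsTranscendenceBasis ℂ z)
    (hsm : ∀ y : Fin (N + 1) → ℂ, y ≠ 0 → (∀ Q ∈ P, eval y Q = 0) → Module.finrank ℂ (conTan P y) ≤ 3) {k : ℕ} {m : Fin k → ℕ}
    (hm : ∀ j, 1 ≤ m j) (θ : ∀ j, SymDiff (coneE P) (m j)) :
    ∃ n : PseudoLength (coneE P), ∀ f : ℂ → PN N, IsNull n f → ∀ j, TangentTo (θ j) f := by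
  have hS : Surface (cone P) := Pool.Agent.H13.SM.surface_cone hP hz fun y hy => hsm y hy.1 hy.2
  have hX : IsCone (coneE P) := isCone_transport (LE N) hS
  have hch : Charts (coneE P) := Pool.Agent.H17EF.charts hS
  refine ⟨symLength hX hch hm θ, ?_⟩
  rintro f ⟨F, hF, h0⟩ j
  exact ⟨F, hF, fun z => (symLength_zero hX hch hm θ).1 (h0 z) j⟩

end

end Pool.Agent.H22.WB
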