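import Pool.Agent.H22.WL.Hur
import Pool.Agent.H5.BD.CTr

/-!
# WB Cls: the limits in the boundary of the curves in the complement

`Bd X q c L`: the entire curves of `BC X c L` which are in `{q = 0}` and are limits of curves of `BC X c L` on which `q` has no zeros.
-/

set_option autoImplicit false

open Topology Filter Metric

namespace Pool.Agent.H22.WB

open Pool.Agent.H36.BP (EN fs wd)
open Pool.Agent.H14.PP (IsCone Chart CurveAt)
open Pool.Agent.H62.EF (Charts pr limit_curves pr_lipschitz pr_smul pr_eq_iff MN)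
open Pool.Agent.H5.BD (BC)
open Pool.Agent.H22.WL (LocLim dichotomy q_zero_iff)

variable {N : ℕ} {X : Set (EN N)} {q : EN N → ℂ} {d : ℕ} {c L : ℝ}

/-- the limit curves in the boundary -/
def Bd (X : Set (EN N)) (q : EN N → ℂ) (c L : ℝ) : Set (ℂ → EN N) :=
  {g | g ∈ BC X c L ∧ (∀ z, q (g z) = 0) ∧ ∀ R ε : ℝ, 0 < ε →
    ∃ F ∈ BC X c L, (∀ z, q (F z) ≠ 0) ∧ ∀ z ∈ closedBall (0 : ℂ) R, dist (pr (F z)) (pr (g z)) ≤ ε}

theorem bc_translate {F : ℂ → EN N} (hF : F ∈ BC X c L) (a : ℂ) : (fun z => F (a + z)) ∈ BC X c L := by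
  have h := Pool.Agent.H5.BD.bc_trans hF a
  have h1 : (fun z => F (z + a)) = fun z => F (a + z) := by
    funext z
    rw [add_comm]
  rwa [h1] at h

theorem bc_lip (hX : IsCone X) {F : ℂ → EN N} (hF : F ∈ BC X c L) (z w : ℂ) : dist (pr (F z)) (pr (F w)) ≤ 2 * L * ‖z - w‖ :=
  pr_lipschitz isOpen_univ convex_univ hF.1.differentiableOn (fun z _ => hX.ne_zero (hF.2.1 z)) (fun z _ => (hF.2.2 z).2) z
    (Set.mem_univ z) w (Set.mem_univ w)

/-- Lipschitz maps which converge at every point converge uniformly on discs -/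
theorem unif_pr {l : Filter ℕ} {F : ℕ → ℂ → EN N} {H : ℂ → EN N} {C : ℝ} (hC : 0 ≤ C)
    (hF : ∀ n z w, dist (pr (F n z)) (pr (F n w)) ≤ C * ‖z - w‖) (hH : ∀ z w, dist (pr (H z)) (pr (H w)) ≤ C * ‖z - w‖)
    (hlim : ∀ z, Tendsto (fun n => pr (F n z)) l (𝓝 (pr (H z)))) (R : ℝ) {ε : ℝ} (hε : 0 < ε) :
    ∀ᶠ n in l, ∀ z ∈ closedBall (0 : ℂ) R, dist (pr (F n z)) (pr (H z)) ≤ ε := by
  obtain ⟨δ, hδ⟩ : ∃ δ : ℝ, δ = ε / (3 * (C + 1)) := ⟨_, rfl⟩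
  have hδ0 : 0 < δ := by rw [hδ]; positivity
  have hCδ : C * δ ≤ ε / 3 := by
    rw [hδ]
    have h1 : C * (ε / (3 * (C + 1))) = ε / 3 * (C / (C + 1)) := by field_simp
    rw [h1]
    have h2 : C / (C + 1) ≤ 1 := by
      rw [div_le_one (by linarith)]
      linarith
    nlinarith
  obtain ⟨t, -, ht⟩ := (isCompact_closedBall (0 : ℂ) R).elim_nhds_subcover (fun x => ball x δ) (fun x _ => ball_mem_nhds x hδ0)
  have h1 : ∀ᶠ n in l, ∀ x ∈ t, dist (pr (F n x)) (pr (H x)) < ε / 3 := by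
    rw [eventually_all_finset]
    intro x _
    have h2 := hlim x
    rw [Metric.tendsto_nhds] at h2
    exact h2 (ε / 3) (by positivity)
  filter_upwards [h1] with n hn z hz
  have h2 := ht hz
  simp only [Set.mem_iUnion, exists_prop] at h2
  obtain ⟨x, hx, hzx⟩ := h2
  rw [mem_ball, dist_eq_norm] at hzx
  have h3 := hn x hx
  have h4 := hF n z x
  have h5 := hH x z
  rw [norm_sub_rev] at h5
  have h6 : C * ‖z - x‖ ≤ C * δ := mul_le_mul_of_nonneg_left hzx.le hC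
  calc dist (pr (F n z)) (pr (H z)) ≤ dist (pr (F n z)) (pr (F n x)) + dist (pr (F n x)) (pr (H x)) + dist (pr (H x)) (pr (H z)) :=
        dist_triangle4 _ _ _ _
    _ ≤ C * ‖z - x‖ + ε / 3 + C * ‖z - x‖ := by linarith
    _ ≤ ε := by linarith

theorem Bd.translate {g : ℂ → EN N} (hg : g ∈ Bd X q c L) (a : ℂ) : (fun z => g (a + z)) ∈ Bd X q c L := by
  obtain ⟨h1, h2, h3⟩ := hg
  refine ⟨bc_translate h1 a, fun z => h2 _, fun R ε hε => ?_⟩
  obtain ⟨F, hF, hF0, hFd⟩ := h3 (‖a‖ + R) ε hε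
  refine ⟨fun z => F (a + z), bc_translate hF a, fun z => hF0 _, fun z hz => hFd _ ?_⟩
  rw [mem_closedBall_zero_iff] at hz ⊢
  exact (norm_add_le _ _).trans (by linarith)

/-- limits of curves of bounded distortion -/
theorem bc_limit (hX : IsCone X) (hL : 0 < L) (𝒰 : Ultrafilter ℕ) (h𝒰 : (𝒰 : Filter ℕ) ≤ atTop) {F : ℕ → ℂ → EN N}
    (hF : ∀ n, F n ∈ BC X c L) :
    ∃ H ∈ BC X c L, (∀ z, Tendsto (fun n => pr (F n z)) 𝒰 (𝓝 (pr (H z)))) ∧ LocLim 𝒰 F H := by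
  have hρ : Tendsto (fun k : ℕ => (k : ℝ) + 1) 𝒰 atTop :=
    (tendsto_atTop_add_const_right _ _ tendsto_natCast_atTop_atTop).mono_left h𝒰
  obtain ⟨H, hH, hHX, hpr, hfs, hloc⟩ := limit_curves hX hL 𝒰 F (fun k : ℕ => (k : ℝ) + 1) hρ
    (Eventually.of_forall fun k => ⟨(hF k).1.differentiableOn, fun z _ => ⟨(hF k).2.1 z, ((hF k).2.2 z).2⟩⟩)
  refine ⟨H, ⟨hH, hHX, fun z => ⟨?_, ?_⟩⟩, hpr, hloc⟩
  · exact ge_of_tendsto (hfs z) (Eventually.of_forall fun k => ((hF k).2.2 z).1)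
  · exact le_of_tendsto (hfs z) (Eventually.of_forall fun k => ((hF k).2.2 z).2)

theorem Bd.zero_of_lim (hq : Differentiable ℂ q) (hhom : ∀ (c : ℂ) (x : EN N), q (c • x) = c ^ d * q x) {l : Filter ℕ} [l.NeBot]
    {F : ℕ → ℂ → EN N} {H : ℂ → EN N} (hF : ∀ n z, q (F n z) = 0) (hlim : LocLim l F H) (z : ℂ) : q (H z) = 0 := by
  obtain ⟨r, φ, ψ, hr, hφ, hψ, hψH, hconv⟩ := hlim z
  have hz : z ∈ ball z r := mem_ball_self hr
  have h1 : Tendsto (fun n => q (φ n z)) l (𝓝 (q (ψ z))) := (hq.continuous.tendsto _).comp (hconv.tendsto_at hz)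
  have h2 : ∀ᶠ n in l, q (φ n z) = 0 := by
    filter_upwards [hφ] with n hn
    obtain ⟨c, hc, h3⟩ := hn.2 z hz
    rw [h3, hhom, hF, mul_zero]
  have h3 : q (ψ z) = 0 := tendsto_nhds_unique h1 (tendsto_const_nhds.congr' (h2.mono fun n hn => hn.symm))
  obtain ⟨c, hc, h4⟩ := hψH z hz
  rwa [h4, q_zero_iff hhom hc] at h3

/-- the family `Bd` is closed -/
theorem Bd.limit (hX : IsCone X) (hq : Differentiable ℂ q) (hhom : ∀ (c : ℂ) (x : EN N), q (c • x) = c ^ d * q x) (hL : 0 < L)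
    (𝒰 : Ultrafilter ℕ) (h𝒰 : (𝒰 : Filter ℕ) ≤ atTop) {F : ℕ → ℂ → EN N} (hF : ∀ n, F n ∈ Bd X q c L) :
    ∃ H ∈ Bd X q c L, LocLim 𝒰 F H := by
  obtain ⟨H, hH, hpr, hloc⟩ := bc_limit hX hL 𝒰 h𝒰 (fun n => (hF n).1)
  refine ⟨H, ⟨hH, Bd.zero_of_lim hq hhom (fun n => (hF n).2.1) hloc, fun R ε hε => ?_⟩, hloc⟩
  have h1 := unif_pr (by positivity : (0 : ℝ) ≤ 2 * L) (fun n => bc_lip hX (hF n).1) (bc_lip hX hH) hpr R (half_pos hε)
  obtain ⟨n, hn⟩ := h1.exists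
  obtain ⟨G, hG, hG0, hGd⟩ := (hF n).2.2 R (ε / 2) (half_pos hε)
  refine ⟨G, hG, hG0, fun z hz => ?_⟩
  have h2 := hn z hz
  have h3 := hGd z hz
  linarith [dist_triangle (pr (G z)) (pr (F n z)) (pr (H z))]

/-- if curves of bounded distortion on which `q` has no zeros come close to the boundary then there is a limit curve in the boundary -/
theorem Bd.exists_of_near (hX : IsCone X) (hq : Differentiable ℂ q) (hhom : ∀ (c : ℂ) (x : EN N), q (c • x) = c ^ d * q x) (hL : 0 < L)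
    (h : ∀ c₀ : ℝ, 0 < c₀ → ∃ F ∈ BC X c L, (∀ z, q (F z) ≠ 0) ∧ ∃ z, ‖q (F z)‖ < c₀ * ‖F z‖ ^ d) : (Bd X q c L).Nonempty := by
  have hbad : ∀ k : ℕ, ∃ F ∈ BC X c L, (∀ z, q (F z) ≠ 0) ∧ ∃ z, ‖q (F z)‖ < ((k : ℝ) + 1)⁻¹ * ‖F z‖ ^ d := fun k => h _ (by positivity)
  choose F hF hFq zc hzc using hbad
  obtain ⟨G, hG⟩ : ∃ G : ℕ → ℂ → EN N, G = fun k z => F k (zc k + z) := ⟨_, rfl⟩
  have hGB : ∀ k, G k ∈ BC X c L := fun k => by rw [hG]; exact bc_translate (hF k) _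
  have hGq : ∀ k z, q (G k z) ≠ 0 := fun k z => by rw [hG]; exact hFq k _
  have hle : (hyperfilter ℕ : Filter ℕ) ≤ atTop := Nat.hyperfilter_le_atTop
  have hρ : Tendsto (fun k : ℕ => (k : ℝ) + 1) (hyperfilter ℕ : Filter ℕ) atTop :=
    (tendsto_atTop_add_const_right _ _ tendsto_natCast_atTop_atTop).mono_left hle
  obtain ⟨H, hH, hpr, hloc⟩ := bc_limit hX hL (hyperfilter ℕ) hle hGB
  have hzero : q (H 0) = 0 := by
    refine Pool.Agent.H22.WL.zero_of_tendsto hq hhom (δ := fun k : ℕ => ((k : ℝ) + 1)⁻¹) (l := (hyperfilter ℕ : Filter ℕ))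
      (tendsto_inv_atTop_zero.comp hρ) ?_ hloc
    refine Eventually.of_forall fun k => ?_
    have h1 := (hzc k).le
    rw [hG]
    simp only [add_zero]
    exact h1
  have hall : ∀ z, q (H z) = 0 :=
    (dichotomy hq hhom (hyperfilter ℕ) hρ (Eventually.of_forall fun k z _ => hGq k z) hloc).resolve_right fun h => h 0 hzero
  refine ⟨H, hH, hall, fun R ε hε => ?_⟩
  have h1 := unif_pr (by positivity : (0 : ℝ) ≤ 2 * L) (fun n => bc_lip hX (hGB n)) (bc_lip hX hH) hpr R hε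
  obtain ⟨n, hn⟩ := h1.exists
  exact ⟨G n, hGB n, hGq n, hn⟩

/-- a curve of `Bd` is the limit of curves on which `q` has no zeros -/
theorem Bd.approx (hX : IsCone X) (hL : 0 < L) {g : ℂ → EN N} (hg : g ∈ Bd X q c L) :
    ∃ F : ℕ → ℂ → EN N, (∀ n, F n ∈ BC X c L) ∧ (∀ n z, q (F n z) ≠ 0) ∧ LocLim (hyperfilter ℕ : Filter ℕ) F g := by
  have h1 : ∀ k : ℕ, ∃ F ∈ BC X c L, (∀ z, q (F z) ≠ 0) ∧ ∀ z ∈ closedBall (0 : ℂ) k, dist (pr (F z)) (pr (g z)) ≤ ((k : ℝ) + 1)⁻¹ :=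
    fun k => hg.2.2 k _ (by positivity)
  choose F hF hFq hFd using h1
  have hle : (hyperfilter ℕ : Filter ℕ) ≤ atTop := Nat.hyperfilter_le_atTop
  obtain ⟨H, hH, hpr, hloc⟩ := bc_limit hX hL (hyperfilter ℕ) hle hF
  have hρ : Tendsto (fun k : ℕ => (k : ℝ) + 1) (hyperfilter ℕ : Filter ℕ) atTop :=
    (tendsto_atTop_add_const_right _ _ tendsto_natCast_atTop_atTop).mono_left hle
  have heq : ∀ z, pr (H z) = pr (g z) := by
    intro z
    refine tendsto_nhds_unique (hpr z) ?_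
    rw [tendsto_iff_dist_tendsto_zero]
    refine squeeze_zero' (Eventually.of_forall fun k => dist_nonneg) ?_ (tendsto_inv_atTop_zero.comp hρ)
    filter_upwards [hρ.eventually_gt_atTop (‖z‖ + 1)] with k hk
    exact hFd k z (by rw [mem_closedBall_zero_iff]; linarith)
  refine ⟨F, hF, hFq, fun z₀ => ?_⟩
  obtain ⟨r, φ, ψ, hr, hφ, hψ, hψH, hconv⟩ := hloc z₀
  refine ⟨r, φ, ψ, hr, hφ, hψ, fun z hz => ?_, hconv⟩
  obtain ⟨b, hb, h2⟩ := hψH z hz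
  obtain ⟨b', hb', h3⟩ := (pr_eq_iff (hX.ne_zero (hH.2.1 z)) (hX.ne_zero (hg.1.2.1 z))).1 (heq z)
  exact ⟨b * b', mul_ne_zero hb hb', by rw [h2, h3, smul_smul]⟩

end Pool.Agent.H22.WB
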