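import Pool.Agent.H22.WB.DCh

/-!
# WB Cmp: comparison of two boundary charts at a common point of the boundary
-/

set_option autoImplicit false

open Topology Filter Metric

namespace Pool.Agent.H22.WB

open Pool.Agent.H36.BP (EN fs wd)
open Pool.Agent.H14.PP (IsCone Chart CurveAt Form IsOpenPart aCoef ACoef jac rho)
open Pool.Agent.H62.EF (Charts)

variable {N : ℕ} {X : Set (EN N)} {q : EN N → ℂ} {d M : ℕ} {Ω : Form (Kq X q) M 1} {α α' : ℝ}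

theorem BChart.comp_eq (hX : IsCone X) (hq : Differentiable ℂ q) (hhom : ∀ (c : ℂ) (x : EN N), q (c • x) = c ^ d * q x)
    (hM : 1 ≤ M) (B B' : BChart Ω d α) {a : ℂ}
    (ha : a ∈ ball (0 : ℂ) B'.ρ) (hU : B'.χ.σ (a, 0) ∈ B.χ.U) (hb : B.χ.q (B'.χ.σ (a, 0)) ∈ ball (0 : ℂ × ℂ) B.ρ) :
    B'.Γ (a, 0) = ‖(fderiv ℂ (fun y => B.χ.q (B'.χ.σ y)) (a, 0) (1, 0)).1‖ * B.Γ (B.χ.q (B'.χ.σ (a, 0))) := by
  obtain ⟨-, β, hβ, h1, h2, -, h4⟩ := BChart.lim hX hq hhom hM B B' ha hU hb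
  have h5 : B'.Γ (a, 0) * ‖β‖ = ‖(fderiv ℂ (fun y => B.χ.q (B'.χ.σ y)) (a, 0) (1, 0)).1‖ * ‖β‖ * B.Γ (B.χ.q (B'.χ.σ (a, 0))) := by
    refine tendsto_nhds_unique_of_eventuallyEq h1 h2 ?_
    filter_upwards [h4] with t ht
    obtain ⟨e1, e2⟩ := ht
    exact mul_right_cancel₀ (Real.rpow_pos_of_pos e1 α).ne' e2
  have h6 : ‖β‖ ≠ 0 := norm_ne_zero_iff.2 hβ
  refine mul_right_cancel₀ h6 ?_
  rw [h5]
  ring

theorem BChart.comp_lt (hX : IsCone X) (hq : Differentiable ℂ q) (hhom : ∀ (c : ℂ) (x : EN N), q (c • x) = c ^ d * q x)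
    (hM : 1 ≤ M) (B : BChart Ω d α) (B' : BChart Ω d α') (hα : α < α') {a : ℂ}
    (ha : a ∈ ball (0 : ℂ) B'.ρ) (hU : B'.χ.σ (a, 0) ∈ B.χ.U) (hb : B.χ.q (B'.χ.σ (a, 0)) ∈ ball (0 : ℂ × ℂ) B.ρ) :
    B.Γ (B.χ.q (B'.χ.σ (a, 0))) = 0 := by
  obtain ⟨hA, β, hβ, h1, h2, h3, h4⟩ := BChart.lim hX hq hhom hM B B' ha hU hb
  have h5 : Tendsto (fun t : ℂ => rho q d (B'.χ.σ (a, t)) ^ (α' - α)) (𝓝[≠] 0) (𝓝 0) := by
    have := h3.rpow_const (p := α' - α) (Or.inr (sub_nonneg.2 hα.le))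
    rwa [Real.zero_rpow (sub_ne_zero.2 hα.ne')] at this
  have h6 := h1.mul h5
  rw [mul_zero] at h6
  have h7 : (0 : ℝ) = ‖(fderiv ℂ (fun y => B.χ.q (B'.χ.σ y)) (a, 0) (1, 0)).1‖ * ‖β‖ * B.Γ (B.χ.q (B'.χ.σ (a, 0))) := by
    refine tendsto_nhds_unique_of_eventuallyEq h6 h2 ?_
    filter_upwards [h4] with t ht
    obtain ⟨e1, e2⟩ := ht
    refine mul_right_cancel₀ (Real.rpow_pos_of_pos e1 α).ne' ?_
    rw [← e2, mul_assoc, ← Real.rpow_add e1, sub_add_cancel]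
  have h8 : ‖(fderiv ℂ (fun y => B.χ.q (B'.χ.σ y)) (a, 0) (1, 0)).1‖ * ‖β‖ ≠ 0 :=
    mul_ne_zero (norm_ne_zero_iff.2 hA) (norm_ne_zero_iff.2 hβ)
  exact (mul_eq_zero.1 h7.symm).resolve_left h8

theorem BChart.comp_gt (hX : IsCone X) (hq : Differentiable ℂ q) (hhom : ∀ (c : ℂ) (x : EN N), q (c • x) = c ^ d * q x)
    (hM : 1 ≤ M) (B : BChart Ω d α) (B' : BChart Ω d α') (hα : α' < α) {a : ℂ}
    (ha : a ∈ ball (0 : ℂ) B'.ρ) (hU : B'.χ.σ (a, 0) ∈ B.χ.U) (hb : B.χ.q (B'.χ.σ (a, 0)) ∈ ball (0 : ℂ × ℂ) B.ρ) :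
    B'.Γ (a, 0) = 0 := by
  obtain ⟨hA, β, hβ, h1, h2, h3, h4⟩ := BChart.lim hX hq hhom hM B B' ha hU hb
  have h5 : Tendsto (fun t : ℂ => rho q d (B'.χ.σ (a, t)) ^ (α - α')) (𝓝[≠] 0) (𝓝 0) := by
    have := h3.rpow_const (p := α - α') (Or.inr (sub_nonneg.2 hα.le))
    rwa [Real.zero_rpow (sub_ne_zero.2 hα.ne')] at this
  have h6 := h2.mul h5
  rw [mul_zero] at h6
  have h7 : B'.Γ (a, 0) * ‖β‖ = 0 := by
    refine tendsto_nhds_unique_of_eventuallyEq h1 h6 ?_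
    filter_upwards [h4] with t ht
    obtain ⟨e1, e2⟩ := ht
    refine mul_right_cancel₀ (Real.rpow_pos_of_pos e1 α').ne' ?_
    rw [e2]
    conv_rhs => rw [mul_assoc, ← Real.rpow_add e1, sub_add_cancel]
  exact (mul_eq_zero.1 h7).resolve_right (norm_ne_zero_iff.2 hβ)

theorem BChart.h_ev (B : BChart Ω d α) {a : ℂ} (ha : a ∈ ball (0 : ℂ) B.ρ) : ∀ᶠ x in 𝓝[≠] a, B.h x ≠ 0 := by
  rcases (B.h_an a ha).eventually_eq_zero_or_eventually_ne_zero with h1 | h1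
  · exfalso
    obtain ⟨x, hx, hx0⟩ := B.h_ne
    have h2 : Set.EqOn B.h 0 (ball 0 B.ρ) :=
      AnalyticOnNhd.eqOn_zero_of_preconnected_of_eventuallyEq_zero (fun y hy => B.h_an y hy) (convex_ball _ _).isPreconnected ha h1
    exact hx0 (h2 hx)
  · exact h1

/-- **The exponents of two boundary charts at a common point are equal.** -/
theorem BChart.alpha_eq (hX : IsCone X) (hq : Differentiable ℂ q) (hhom : ∀ (c : ℂ) (x : EN N), q (c • x) = c ^ d * q x)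
    (hM : 1 ≤ M) (B : BChart Ω d α) (B' : BChart Ω d α') {a : ℂ}
    (ha : a ∈ ball (0 : ℂ) B'.ρ) (hU : B'.χ.σ (a, 0) ∈ B.χ.U) (hb : B.χ.q (B'.χ.σ (a, 0)) ∈ ball (0 : ℂ × ℂ) B.ρ) : α = α' := by
  have hp : ((a, 0) : ℂ × ℂ) ∈ ball (0 : ℂ × ℂ) B'.ρ := mem_ball_axis.2 ha
  have hp2 := B'.ball_two hp
  have hA := (BChart.lim hX hq hhom hM B B' ha hU hb).1
  obtain ⟨τ, hτ⟩ : ∃ τ : ℂ × ℂ → ℂ × ℂ, τ = fun y => B.χ.q (B'.χ.σ y) := ⟨_, rfl⟩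
  have hτv : ∀ y, B.χ.q (B'.χ.σ y) = τ y := fun y => by rw [hτ]
  have hτa : AnalyticAt ℂ τ (a, 0) := by
    rw [hτ]
    exact AnalyticAt.fun_comp (g := B.χ.q) (f := B'.χ.σ) (B.χ.q_an _ hU) (B'.χ.σ_an _ hp2)
  rw [← hτ] at hA
  rw [hτv] at hb
  have hlx : Tendsto (fun x : ℂ => ((x, 0) : ℂ × ℂ)) (𝓝 a) (𝓝 (a, 0)) := by
    have h3 : ContinuousAt (fun x : ℂ => ((x, 0) : ℂ × ℂ)) a := by fun_prop
    exact h3
  have hnear : ∀ᶠ x in 𝓝 a, x ∈ ball (0 : ℂ) B'.ρ ∧ B'.χ.σ (x, 0) ∈ B.χ.U ∧ τ (x, 0) ∈ ball (0 : ℂ × ℂ) B.ρ := by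
    have h1 : ∀ᶠ x in 𝓝 a, x ∈ ball (0 : ℂ) B'.ρ := isOpen_ball.mem_nhds ha
    have h2 : ∀ᶠ y in 𝓝 ((a, 0) : ℂ × ℂ), B'.χ.σ y ∈ B.χ.U :=
      (B'.χ.σ_an _ hp2).continuousAt.eventually_mem (B.χ.isOpen_U.mem_nhds hU)
    have h3 : ∀ᶠ y in 𝓝 ((a, 0) : ℂ × ℂ), τ y ∈ ball (0 : ℂ × ℂ) B.ρ :=
      hτa.continuousAt.eventually_mem (isOpen_ball.mem_nhds hb)
    filter_upwards [h1, hlx.eventually h2, hlx.eventually h3] with y e1 e2 e3 using ⟨e1, e2, e3⟩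
  have hsnd : ∀ x, x ∈ ball (0 : ℂ) B'.ρ → B'.χ.σ (x, 0) ∈ B.χ.U → τ (x, 0) ∈ ball (0 : ℂ × ℂ) B.ρ → τ (x, 0) = ((τ (x, 0)).1, 0) := by
    intro x h1 h2 h3
    refine Prod.ext rfl ?_
    show (τ (x, 0)).2 = 0
    have h1' : ((x, 0) : ℂ × ℂ) ∈ ball (0 : ℂ × ℂ) B'.ρ := mem_ball_axis.2 h1
    obtain ⟨-, c, hc, h4⟩ := B.χ.surj _ (B'.χ.σ_mem _ (B'.ball_two h1')).1 h2
    rw [← B.zero _ h3]
    rw [hτv] at h4
    have h5 := (B'.zero _ h1').2 rfl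
    rw [h4, hhom, mul_eq_zero] at h5
    exact h5.resolve_left (pow_ne_zero _ hc)
  have hb0 := hnear.self_of_nhds
  have hbx : (τ (a, 0)).1 ∈ ball (0 : ℂ) B.ρ := by
    rw [← mem_ball_axis, ← hsnd a hb0.1 hb0.2.1 hb0.2.2]
    exact hb
  have hD : HasFDerivAt τ (fderiv ℂ τ (a, 0)) (a, 0) := hτa.differentiableAt.hasFDerivAt
  have e1 : HasDerivAt (fun x : ℂ => ((x, 0) : ℂ × ℂ)) ((1, 0) : ℂ × ℂ) a := (hasDerivAt_id a).prodMk (hasDerivAt_const a (0 : ℂ))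
  have e2 : HasDerivAt (fun x : ℂ => τ (x, 0)) (fderiv ℂ τ (a, 0) (1, 0)) a := hD.comp_hasDerivAt a e1
  have e3 : HasDerivAt (fun x : ℂ => (τ (x, 0)).1) (fderiv ℂ τ (a, 0) (1, 0)).1 a := e2.fst
  have e4 : Tendsto (fun x : ℂ => (τ (x, 0)).1) (𝓝[≠] a) (𝓝[≠] (τ (a, 0)).1) := e3.tendsto_nhdsNE hA
  have h5 := B'.h_ev ha
  have h6 := e4.eventually (B.h_ev hbx)
  obtain ⟨x, ⟨h7, h8⟩, h9⟩ := ((h5.and h6).and (hnear.filter_mono nhdsWithin_le_nhds)).exists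
  obtain ⟨h9a, h9b, h9c⟩ := h9
  have h10 : B'.Γ (x, 0) ≠ 0 := (B'.axis_ne hX h9a).2 h7
  have h11 : B.Γ (τ (x, 0)) ≠ 0 := by
    rw [hsnd x h9a h9b h9c]
    have h12 : (τ (x, 0)).1 ∈ ball (0 : ℂ) B.ρ := by
      rw [← mem_ball_axis, ← hsnd x h9a h9b h9c]
      exact h9c
    exact (B.axis_ne hX h12).2 h8
  rw [← hτv] at h9c h11
  rcases lt_trichotomy α α' with h | h | h
  · exact absurd (BChart.comp_lt hX hq hhom hM B B' h h9a h9b h9c) h11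
  · exact h
  · exact absurd (BChart.comp_gt hX hq hhom hM B B' h h9a h9b h9c) h10

/-- the point is in the boundary chart -/
def BChart.At (B : BChart Ω d α) (x : EN N) : Prop := x ∈ X ∧ x ∈ B.χ.U ∧ B.χ.q x ∈ ball (0 : ℂ × ℂ) B.ρ

/-- the value of the section on the derivative of a curve in the boundary -/
noncomputable def BChart.tval (B : BChart Ω d α) (g : ℂ → EN N) : ℝ := ‖deriv (fun z => (B.χ.q (g z)).1) 0‖ * B.Γ (B.χ.q (g 0))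

theorem BChart.At.snd (hhom : ∀ (c : ℂ) (x : EN N), q (c • x) = c ^ d * q x) {B : BChart Ω d α} {x : EN N} (h : B.At x) (hx : q x = 0) :
    (B.χ.q x).2 = 0 := by
  obtain ⟨h1, h2, h3⟩ := h
  obtain ⟨-, c, hc, h4⟩ := B.χ.surj x h1 h2
  rw [← B.zero _ h3]
  rw [h4, hhom, mul_eq_zero] at hx
  exact hx.resolve_left (pow_ne_zero _ hc)

theorem BChart.At.sigma {B : BChart Ω d α} {B' : BChart Ω d α'} {x : EN N} (h : B.At x) (h' : B'.At x) :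
    B.At (B'.χ.σ (B'.χ.q x)) ∧ B.χ.q (B'.χ.σ (B'.χ.q x)) = B.χ.q x := by
  obtain ⟨h1, h2, h3⟩ := h
  obtain ⟨-, h2', h3'⟩ := h'
  obtain ⟨-, c, hc, h4⟩ := B'.χ.surj x h1 h2'
  have h5 : B'.χ.σ (B'.χ.q x) = c⁻¹ • x := by
    conv_rhs => rw [h4]
    rw [smul_smul, inv_mul_cancel₀ hc, one_smul]
  have hc' : c⁻¹ ≠ 0 := inv_ne_zero hc
  have h6 : B.χ.q (c⁻¹ • x) = B.χ.q x := B.χ.q_smul x h2 _ hc'
  rw [h5]
  refine ⟨⟨?_, B.χ.smul_U x h2 _ hc', by rw [h6]; exact h3⟩, h6⟩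
  rw [← h5]
  exact (B'.χ.σ_mem _ (B'.ball_two h3')).1

theorem prod_eq_fst {p : ℂ × ℂ} (h : p.2 = 0) : p = (p.1, 0) := Prod.ext rfl h

/-- **The exponent at a point of the boundary.** -/
theorem BChart.At.alpha_eq (hX : IsCone X) (hq : Differentiable ℂ q) (hhom : ∀ (c : ℂ) (x : EN N), q (c • x) = c ^ d * q x)
    (hM : 1 ≤ M) {B : BChart Ω d α} {B' : BChart Ω d α'} {x : EN N} (h : B.At x) (h' : B'.At x) (hx : q x = 0) : α = α' := by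
  obtain ⟨⟨-, h1, h2⟩, -⟩ := h.sigma h'
  have h3 := prod_eq_fst (h'.snd hhom hx)
  have h4 := h'.2.2
  rw [h3] at h1 h2 h4
  exact BChart.alpha_eq hX hq hhom hM B B' (mem_ball_axis.1 h4) h1 h2

/-- **The value does not depend on the boundary chart.** -/
theorem BChart.tval_eq (hX : IsCone X) (hq : Differentiable ℂ q) (hhom : ∀ (c : ℂ) (x : EN N), q (c • x) = c ^ d * q x)
    (hM : 1 ≤ M) {B B' : BChart Ω d α} {g : ℂ → EN N} (hg : CurveAt X g 0) (hgq : ∀ᶠ z in 𝓝 (0 : ℂ), q (g z) = 0)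
    (h : B.At (g 0)) (h' : B'.At (g 0)) : B'.tval g = B.tval g := by
  obtain ⟨⟨-, h1, h2⟩, h5⟩ := h.sigma h'
  have h3 := prod_eq_fst (h'.snd hhom hgq.self_of_nhds)
  have h4 := h'.2.2
  rw [h3] at h1 h2 h4 h5
  have h6 := BChart.comp_eq hX hq hhom hM B B' (mem_ball_axis.1 h4) h1 h2
  have hp2 := B'.ball_two h4
  obtain ⟨τ, hτ⟩ : ∃ τ : ℂ × ℂ → ℂ × ℂ, τ = fun y => B.χ.q (B'.χ.σ y) := ⟨_, rfl⟩
  have hτv : ∀ y, B.χ.q (B'.χ.σ y) = τ y := fun y => by rw [hτ]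
  have hτa : AnalyticAt ℂ τ (B'.χ.q (g 0)) := by
    rw [hτ, h3]
    exact AnalyticAt.fun_comp (g := B.χ.q) (f := B'.χ.σ) (B.χ.q_an _ h1) (B'.χ.σ_an _ hp2)
  have hev : ∀ᶠ z in 𝓝 (0 : ℂ), B.At (g z) ∧ B'.At (g z) := by
    have a0 := hg.2
    have a1 := hg.1.continuousAt.eventually_mem (B.χ.isOpen_U.mem_nhds h.2.1)
    have a2 := hg.1.continuousAt.eventually_mem (B'.χ.isOpen_U.mem_nhds h'.2.1)
    have a3 := (B.χ.curve hX hg h.2.1).1.continuousAt.eventually_mem (isOpen_ball.mem_nhds h.2.2)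
    have a4 := (B'.χ.curve hX hg h'.2.1).1.continuousAt.eventually_mem (isOpen_ball.mem_nhds h'.2.2)
    filter_upwards [a0, a1, a2, a3, a4] with z b0 b1 b2 b3 b4 using ⟨⟨b0, b1, b3⟩, b0, b2, b4⟩
  have hrel : ∀ᶠ z in 𝓝 (0 : ℂ), (B.χ.q (g z)).1 = (τ (B'.χ.q (g z))).1 := by
    filter_upwards [hev] with z hz
    rw [← hτv, (hz.1.sigma hz.2).2]
  have hγ' : HasDerivAt (fun z => B'.χ.q (g z)) (deriv (fun z => B'.χ.q (g z)) 0) 0 :=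
    (B'.χ.curve hX hg h'.2.1).1.differentiableAt.hasDerivAt
  have hγ1 : HasDerivAt (fun z => (B'.χ.q (g z)).1) (deriv (fun z => B'.χ.q (g z)) 0).1 0 := hγ'.fst
  have hγ2 : (deriv (fun z => B'.χ.q (g z)) 0).2 = 0 := by
    have a1 : HasDerivAt (fun z => (B'.χ.q (g z)).2) (deriv (fun z => B'.χ.q (g z)) 0).2 0 := hγ'.snd
    have a2 : HasDerivAt (fun z => (B'.χ.q (g z)).2) 0 0 := by
      refine (hasDerivAt_const (0 : ℂ) (0 : ℂ)).congr_of_eventuallyEq ?_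
      filter_upwards [hev, hgq] with z hz hz2
      exact hz.2.snd hhom hz2
    exact a1.unique a2
  have hD : HasFDerivAt τ (fderiv ℂ τ (B'.χ.q (g 0))) (B'.χ.q (g 0)) := hτa.differentiableAt.hasFDerivAt
  have e1 : HasDerivAt (fun z => (τ (B'.χ.q (g z))).1) (fderiv ℂ τ (B'.χ.q (g 0)) (deriv (fun z => B'.χ.q (g z)) 0)).1 0 := by
    have e10 : HasDerivAt (fun z => τ (B'.χ.q (g z))) (fderiv ℂ τ (B'.χ.q (g 0)) (deriv (fun z => B'.χ.q (g z)) 0)) 0 :=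
      hD.comp_hasDerivAt (0 : ℂ) hγ'
    exact e10.fst
  have e2 : deriv (fun z => (B.χ.q (g z)).1) 0 = (fderiv ℂ τ (B'.χ.q (g 0)) (deriv (fun z => B'.χ.q (g z)) 0)).1 := by
    have e3 : (fun z => (B.χ.q (g z)).1) =ᶠ[𝓝 0] fun z => (τ (B'.χ.q (g z))).1 := hrel
    rw [e3.deriv_eq, e1.deriv]
  obtain ⟨w, hw⟩ : ∃ w, w = (deriv (fun z => B'.χ.q (g z)) 0).1 := ⟨_, rfl⟩
  have e4 : deriv (fun z => B'.χ.q (g z)) 0 = w • ((1, 0) : ℂ × ℂ) := by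
    refine Prod.ext ?_ ?_
    · rw [hw]
      simp
    · rw [hγ2]
      simp
  rw [← hw] at hγ1
  rw [e4, map_smul, Prod.smul_fst, smul_eq_mul, h3] at e2
  unfold BChart.tval
  rw [e2, hγ1.deriv, norm_mul]
  rw [← hτ, hτv] at h6
  rw [hτv] at h5
  rw [h3, h6, ← h5]
  ring

end Pool.Agent.H22.WB
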