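import Pool.Agent.H14.PP.ChartBasic
import Pool.Agent.H62.BU.Inv
import Pool.Agent.H62.EF.DUl

/-!
# WB Rep: change of coordinates in a chart; charts in which a curve is straight
-/

set_option autoImplicit false

open Topology Filter Metric

namespace Pool.Agent.H22.WB

open Pool.Agent.H36.BP (EN fs wd)
open Pool.Agent.H14.PP (IsCone Chart CurveAt)
open Pool.Agent.H62.EF (Charts)

variable {N : ℕ} {X : Set (EN N)}

/-- a change of coordinates in a chart -/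
theorem exists_reparam (χ₀ : Chart X) {Ψ Θ : ℂ × ℂ → ℂ × ℂ} (hΨ : AnalyticAt ℂ Ψ 0) (hΨ0 : Ψ 0 = 0) (hΘ : AnalyticAt ℂ Θ 0)
    (h1 : ∀ᶠ p in 𝓝 (0 : ℂ × ℂ), Θ (Ψ p) = p) (h2 : ∀ᶠ p in 𝓝 (0 : ℂ × ℂ), Ψ (Θ p) = p) :
    ∃ (χ : Chart X) (r : ℝ), 0 < r ∧ (∀ x ∈ χ.U, x ∈ χ₀.U ∧ χ.q x = ((r : ℂ)⁻¹) • Θ (χ₀.q x)) ∧
      ∀ x ∈ χ₀.U, χ₀.q x = 0 → x ∈ χ.U := by
  obtain ⟨W, hWs, hWo, hW0⟩ := _root_.eventually_nhds_iff.mp (hΘ.eventually_analyticAt.and h2)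
  have hΨt : Tendsto Ψ (𝓝 0) (𝓝 0) := by
    have h3 := hΨ.continuousAt.tendsto
    rwa [hΨ0] at h3
  have h02 : (0 : ℂ × ℂ) ∈ ball (0 : ℂ × ℂ) 2 := mem_ball_self two_pos
  obtain ⟨R, hR, hall⟩ := Metric.eventually_nhds_iff_ball.mp
    (((hΨ.eventually_analyticAt.and h1).and (hΨt.eventually (hWo.mem_nhds hW0))).and (hΨt.eventually (isOpen_ball.mem_nhds h02)))
  obtain ⟨r, hr⟩ : ∃ r : ℝ, r = R / 2 := ⟨_, rfl⟩
  have hr0 : 0 < r := by rw [hr]; positivity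
  have hrC : (r : ℂ) ≠ 0 := by exact_mod_cast hr0.ne'
  have hball : ∀ p ∈ ball (0 : ℂ × ℂ) 2, (r : ℂ) • p ∈ ball (0 : ℂ × ℂ) R := by
    intro p hp
    rw [mem_ball_zero_iff] at hp ⊢
    rw [norm_smul, Complex.norm_real, Real.norm_of_nonneg hr0.le, hr]
    nlinarith
  have hΘ0 : Θ 0 = 0 := by
    have h3 := (hall 0 (mem_ball_self hR)).1.1.2
    rwa [hΨ0] at h3
  have hΘW : ContinuousOn Θ W := fun x hx => ((hWs x hx).1.continuousAt).continuousWithinAt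
  have hVo : IsOpen (W ∩ Θ ⁻¹' ball 0 R) := hΘW.isOpen_inter_preimage hWo isOpen_ball
  have hqc : ContinuousOn χ₀.q χ₀.U := fun x hx => ((χ₀.q_an x hx).continuousAt).continuousWithinAt
  have hmem : ∀ p ∈ ball (0 : ℂ × ℂ) 2, χ₀.σ (Ψ ((r : ℂ) • p)) ∈ X ∧ χ₀.σ (Ψ ((r : ℂ) • p)) ∈ χ₀.U ∧
      χ₀.q (χ₀.σ (Ψ ((r : ℂ) • p))) = Ψ ((r : ℂ) • p) := fun p hp => χ₀.σ_mem _ (hall _ (hball p hp)).2
  obtain ⟨χ, hχU, hχq⟩ : ∃ χ : Chart X, χ.U = χ₀.U ∩ χ₀.q ⁻¹' (W ∩ Θ ⁻¹' ball 0 R) ∧ χ.q = fun x => ((r : ℂ)⁻¹) • Θ (χ₀.q x) := by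
    refine ⟨
      { σ := fun p => χ₀.σ (Ψ ((r : ℂ) • p))
        U := χ₀.U ∩ χ₀.q ⁻¹' (W ∩ Θ ⁻¹' ball 0 R)
        q := fun x => ((r : ℂ)⁻¹) • Θ (χ₀.q x)
        isOpen_U := hqc.isOpen_inter_preimage χ₀.isOpen_U hVo
        smul_U := ?_
        σ_an := ?_
        q_an := ?_
        q_smul := ?_
        σ_mem := ?_
        surj := ?_ }, rfl, rfl⟩
    · rintro x ⟨hx, hx2⟩ c hc
      refine ⟨χ₀.smul_U x hx c hc, ?_⟩
      rw [Set.mem_preimage, χ₀.q_smul x hx c hc]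
      exact hx2
    · intro p hp
      have e1 : AnalyticAt ℂ (fun p : ℂ × ℂ => (r : ℂ) • p) p := analyticAt_const.fun_smul analyticAt_id
      have e2 : AnalyticAt ℂ (fun p : ℂ × ℂ => Ψ ((r : ℂ) • p)) p :=
        AnalyticAt.fun_comp (g := Ψ) (f := fun p : ℂ × ℂ => (r : ℂ) • p) (hall _ (hball p hp)).1.1.1 e1
      exact AnalyticAt.fun_comp (g := χ₀.σ) (f := fun p : ℂ × ℂ => Ψ ((r : ℂ) • p)) (χ₀.σ_an _ (hall _ (hball p hp)).2) e2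
    · rintro x ⟨hx, hx2, -⟩
      have e1 : AnalyticAt ℂ (fun x => Θ (χ₀.q x)) x :=
        AnalyticAt.fun_comp (g := Θ) (f := χ₀.q) (hWs _ hx2).1 (χ₀.q_an x hx)
      exact analyticAt_const.fun_smul e1
    · rintro x ⟨hx, -⟩ c hc
      rw [χ₀.q_smul x hx c hc]
    · intro p hp
      obtain ⟨e1, e2, e3⟩ := hmem p hp
      have e4 := hall _ (hball p hp)
      refine ⟨e1, ⟨e2, ?_⟩, ?_⟩
      · rw [Set.mem_preimage, e3]
        refine ⟨e4.1.2, ?_⟩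
        rw [Set.mem_preimage, e4.1.1.2]
        exact hball p hp
      · rw [e3, e4.1.1.2, smul_smul, inv_mul_cancel₀ hrC, one_smul]
    · rintro x hxX ⟨hx, hxW, hxR⟩
      obtain ⟨-, c, hc, hxc⟩ := χ₀.surj x hxX hx
      rw [Set.mem_preimage, mem_ball_zero_iff] at hxR
      refine ⟨?_, c, hc, ?_⟩
      · rw [mem_ball_zero_iff, norm_smul, norm_inv, Complex.norm_real, Real.norm_of_nonneg hr0.le, inv_mul_lt_iff₀ hr0, hr]
        linarith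
      · rw [smul_smul, mul_inv_cancel₀ hrC, one_smul, (hWs _ hxW).2]
        exact hxc
  refine ⟨χ, r, hr0, fun x hx => ?_, fun x hx hx0 => ?_⟩
  · rw [hχU] at hx
    rw [hχq]
    exact ⟨hx.1, rfl⟩
  · rw [hχU]
    refine ⟨hx, ?_⟩
    rw [Set.mem_preimage, hx0]
    refine ⟨hW0, ?_⟩
    rw [Set.mem_preimage, hΘ0]
    exact mem_ball_self hR

/-- the derivative of a curve in a chart is not zero if the Fubini-Study derivative is not zero -/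
theorem deriv_chart_ne (hX : IsCone X) (χ : Chart X) {g : ℂ → EN N} {z : ℂ} (hg : CurveAt X g z) (hU : g z ∈ χ.U)
    (hfs : fs (g z) (deriv g z) ≠ 0) : deriv (fun w => χ.q (g w)) z ≠ 0 := by
  intro h0
  obtain ⟨-, h2, c, hc, hc0, h3⟩ := χ.curve hX hg hU
  obtain ⟨hb, -⟩ := h3.self_of_nhds
  have e1 : HasDerivAt (fun w => χ.q (g w)) 0 z := by
    rw [← h0]
    exact (χ.curve hX hg hU).1.differentiableAt.hasDerivAt
  have e2 : HasFDerivAt χ.σ (fderiv ℂ χ.σ (χ.q (g z))) (χ.q (g z)) := (χ.σ_an _ hb).differentiableAt.hasFDerivAt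
  have e3 : HasDerivAt (fun w => χ.σ (χ.q (g w))) 0 z := by
    have := e2.comp_hasDerivAt z e1
    rw [map_zero] at this
    exact this
  have e4 : HasDerivAt g (c z • (0 : EN N) + deriv c z • χ.σ (χ.q (g z))) z :=
    (hc.differentiableAt.hasDerivAt.smul e3).congr_of_eventuallyEq (h3.mono fun w hw => hw.2)
  rw [smul_zero, zero_add] at e4
  apply hfs
  have hg0 : g z ≠ 0 := hX.ne_zero hg.mem
  have e5 : deriv g z = (deriv c z * (c z)⁻¹) • g z := by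
    rw [e4.deriv]
    conv_rhs => rw [(h3.self_of_nhds).2]
    rw [smul_smul, mul_assoc, inv_mul_cancel₀ hc0, mul_one]
  have e6 : wd (g z) (deriv g z) = 0 := (Pool.Agent.H36.BP.wd_eq_zero hg0).mpr ⟨_, e5⟩
  unfold fs
  rw [e6, zero_div]

/-- **A chart in which the curve is straight.** -/
theorem exists_straight (hX : IsCone X) (hch : Charts X) {g : ℂ → EN N} (hg : CurveAt X g 0)
    (hfs : fs (g 0) (deriv g 0) ≠ 0) :
    ∃ χ : Chart X, g 0 ∈ χ.U ∧ χ.q (g 0) = 0 ∧ ∀ᶠ z in 𝓝 (0 : ℂ), (χ.q (g z)).2 = 0 := by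
  obtain ⟨χ₀, hU, hq⟩ := hch _ hg.mem
  obtain ⟨γ, hγ⟩ : ∃ γ : ℂ → ℂ × ℂ, γ = fun z => χ₀.q (g z) := ⟨_, rfl⟩
  have hγa : AnalyticAt ℂ γ 0 := by rw [hγ]; exact (χ₀.curve hX hg hU).1
  have hγ0 : γ 0 = 0 := by rw [hγ]; exact hq
  have hv : deriv γ 0 ≠ 0 := by rw [hγ]; exact deriv_chart_ne hX χ₀ hg hU hfs
  obtain ⟨e, he⟩ : ∃ e : ℂ × ℂ, ∀ a b : ℂ, a • deriv γ 0 + b • e = 0 → a = 0 ∧ b = 0 := by
    by_cases h1 : (deriv γ 0).1 = 0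
    · have h2 : (deriv γ 0).2 ≠ 0 := fun h2 => hv (Prod.ext h1 h2)
      refine ⟨(1, 0), fun a b hab => ?_⟩
      have e1 := congrArg Prod.fst hab
      have e2 := congrArg Prod.snd hab
      simp only [Prod.fst_add, Prod.snd_add, Prod.smul_fst, Prod.smul_snd, smul_eq_mul, mul_one, mul_zero, add_zero,
        Prod.fst_zero, Prod.snd_zero] at e1 e2
      have e3 : a = 0 := (mul_eq_zero.1 e2).resolve_right h2
      rw [e3, zero_mul, zero_add] at e1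
      exact ⟨e3, e1⟩
    · refine ⟨(0, 1), fun a b hab => ?_⟩
      have e1 := congrArg Prod.fst hab
      have e2 := congrArg Prod.snd hab
      simp only [Prod.fst_add, Prod.snd_add, Prod.smul_fst, Prod.smul_snd, smul_eq_mul, mul_one, mul_zero, add_zero,
        Prod.fst_zero, Prod.snd_zero] at e1 e2
      have e3 : a = 0 := (mul_eq_zero.1 e1).resolve_right h1
      rw [e3, zero_mul, zero_add] at e2
      exact ⟨e3, e2⟩
  obtain ⟨Ψ, hΨ⟩ : ∃ Ψ : ℂ × ℂ → ℂ × ℂ, Ψ = fun p => γ p.1 + p.2 • e := ⟨_, rfl⟩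
  have hΨ0 : Ψ 0 = 0 := by
    rw [hΨ]
    simp only [Prod.fst_zero, Prod.snd_zero, zero_smul, add_zero]
    exact hγ0
  have hγa2 : AnalyticAt ℂ (fun p : ℂ × ℂ => γ p.1) 0 := by
    have e0 : AnalyticAt ℂ γ ((fun p : ℂ × ℂ => p.1) 0) := hγa
    exact AnalyticAt.fun_comp e0 analyticAt_fst
  have hΨa : AnalyticAt ℂ Ψ 0 := by
    rw [hΨ]
    exact hγa2.add (analyticAt_snd.fun_smul analyticAt_const)
  have hΨd : ∀ w : ℂ × ℂ, fderiv ℂ Ψ 0 w = w.1 • deriv γ 0 + w.2 • e := by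
    intro w
    have e1 : HasDerivAt γ (deriv γ 0) ((fun p : ℂ × ℂ => p.1) 0) := hγa.differentiableAt.hasDerivAt
    have e2 : HasFDerivAt (fun p : ℂ × ℂ => γ p.1) ((ContinuousLinearMap.fst ℂ ℂ ℂ).smulRight (deriv γ 0)) 0 := by
      have e20 := e1.hasFDerivAt.comp (0 : ℂ × ℂ) (hasFDerivAt_fst (𝕜 := ℂ) (p := (0 : ℂ × ℂ)))
      refine e20.congr_fderiv ?_
      ext <;> simp
    have e3 : HasFDerivAt (fun p : ℂ × ℂ => p.2 • e) ((ContinuousLinearMap.snd ℂ ℂ ℂ).smulRight e) 0 :=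
      (hasFDerivAt_snd (𝕜 := ℂ) (p := (0 : ℂ × ℂ))).smul_const e
    have e4 : HasFDerivAt (fun p : ℂ × ℂ => γ p.1 + p.2 • e) ((ContinuousLinearMap.fst ℂ ℂ ℂ).smulRight (deriv γ 0) +
        (ContinuousLinearMap.snd ℂ ℂ ℂ).smulRight e) 0 := e2.add e3
    rw [hΨ, e4.fderiv]
    rfl
  obtain ⟨Θ, hΘa, hΘl, hΘr, hΘ0⟩ := Pool.Agent.H62.BU.local_inverse hΨa (by
    intro w hw
    rw [hΨd w] at hw
    obtain ⟨e1, e2⟩ := he _ _ hw
    exact Prod.ext e1 e2)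
  rw [hΨ0] at hΘa hΘr hΘ0
  obtain ⟨χ, r, hr, hχ, hχ0⟩ := exists_reparam χ₀ hΨa hΨ0 hΘa hΘl hΘr
  have hgU : g 0 ∈ χ.U := hχ0 _ hU hq
  refine ⟨χ, hgU, ?_, ?_⟩
  · rw [(hχ _ hgU).2, hq, hΘ0, smul_zero]
  · have h1 : ∀ᶠ z in 𝓝 (0 : ℂ), g z ∈ χ.U := hg.1.continuousAt.eventually_mem (χ.isOpen_U.mem_nhds hgU)
    have h2 : Tendsto (fun z : ℂ => ((z, 0) : ℂ × ℂ)) (𝓝 0) (𝓝 0) := by
      have h3 : ContinuousAt (fun z : ℂ => ((z, 0) : ℂ × ℂ)) 0 := by fun_prop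
      exact h3
    filter_upwards [h1, h2.eventually hΘl] with z hz hz2
    rw [(hχ _ hz).2]
    have h4 : Ψ (z, 0) = χ₀.q (g z) := by
      rw [hΨ, hγ]
      simp
    rw [h4] at hz2
    rw [hz2]
    simp

end Pool.Agent.H22.WB
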