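import Pool.Agent.H22.WB.Cls
import Pool.Agent.H22.WB.Rep

/-!
# WB Coord: convergence of curves in charts
-/

set_option autoImplicit false

open Topology Filter Metric

namespace Pool.Agent.H22.WB

open Pool.Agent.H36.BP (EN fs wd)
open Pool.Agent.H14.PP (IsCone Chart CurveAt)
open Pool.Agent.H62.EF (Charts pr)
open Pool.Agent.H5.BD (BC)
open Pool.Agent.H22.WL (LocLim)

variable {N : ℕ} {X : Set (EN N)} {c L : ℝ}

theorem bc_curve {F : ℂ → EN N} (hF : F ∈ BC X c L) (z : ℂ) : CurveAt X F z :=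
  ⟨hF.1.analyticAt z, Eventually.of_forall hF.2.1⟩

/-- the coordinates of the curves converge, with their first derivatives -/
theorem coord_lim (χ : Chart X) {l : Filter ℕ} {F : ℕ → ℂ → EN N} {g : ℂ → EN N} (hlim : LocLim l F g) (hU : g 0 ∈ χ.U) :
    (∀ᶠ n in l, F n 0 ∈ χ.U) ∧ Tendsto (fun n => χ.q (F n 0)) l (𝓝 (χ.q (g 0))) ∧
    Tendsto (fun n => deriv (fun z => χ.q (F n z)) 0) l (𝓝 (deriv (fun z => χ.q (g z)) 0)) := by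
  obtain ⟨r, φ, ψ, hr, hφ, hψ, hψg, hconv⟩ := hlim 0
  have h0 : (0 : ℂ) ∈ ball (0 : ℂ) r := mem_ball_self hr
  have hnb : ball (0 : ℂ) r ∈ 𝓝 (0 : ℂ) := isOpen_ball.mem_nhds h0
  have hqsm : ∀ (x : EN N) (c : ℂ), c ≠ 0 → (c • x ∈ χ.U ↔ x ∈ χ.U) := by
    intro x c hc
    refine ⟨fun h => ?_, fun h => χ.smul_U x h c hc⟩
    have h1 := χ.smul_U _ h c⁻¹ (inv_ne_zero hc)
    rwa [smul_smul, inv_mul_cancel₀ hc, one_smul] at h1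
  have hψU : ψ 0 ∈ χ.U := by
    obtain ⟨b, hb, h1⟩ := hψg 0 h0
    rw [h1]
    exact χ.smul_U _ hU b hb
  have h1 : Tendsto (fun n => φ n 0) l (𝓝 (ψ 0)) := hconv.tendsto_at h0
  have h2 : Tendsto (fun n => deriv (φ n) 0) l (𝓝 (deriv ψ 0)) := by
    have h3 := hconv.deriv (hφ.mono fun n hn => hn.1) isOpen_ball
    exact h3.tendsto_at h0
  have hφU : ∀ᶠ n in l, φ n 0 ∈ χ.U := h1.eventually (χ.isOpen_U.mem_nhds hψU)
  have hqa : AnalyticAt ℂ χ.q (ψ 0) := χ.q_an _ hψU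
  have hcomp : ∀ (f : ℂ → EN N) (G : ℂ → EN N), DifferentiableOn ℂ f (ball 0 r) → f 0 ∈ χ.U → (∀ z ∈ ball (0 : ℂ) r, ∃ c : ℂ, c ≠ 0 ∧ f z = c • G z) →
      G 0 ∈ χ.U ∧ χ.q (G 0) = χ.q (f 0) ∧ deriv (fun z => χ.q (G z)) 0 = fderiv ℂ χ.q (f 0) (deriv f 0) := by
    intro f G hf hfU hfG
    have hfa : AnalyticAt ℂ f 0 := hf.analyticAt hnb
    have e0 : ∀ z ∈ ball (0 : ℂ) r, f z ∈ χ.U → G z ∈ χ.U ∧ χ.q (G z) = χ.q (f z) := by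
      intro z hz hzU
      obtain ⟨b, hb, h4⟩ := hfG z hz
      rw [h4] at hzU ⊢
      have h5 := (hqsm _ b hb).1 hzU
      exact ⟨h5, (χ.q_smul _ h5 b hb).symm⟩
    have e1 : ∀ᶠ z in 𝓝 (0 : ℂ), f z ∈ χ.U := hfa.continuousAt.eventually_mem (χ.isOpen_U.mem_nhds hfU)
    refine ⟨(e0 0 h0 hfU).1, (e0 0 h0 hfU).2, ?_⟩
    have e2 : (fun z => χ.q (G z)) =ᶠ[𝓝 0] fun z => χ.q (f z) := by
      filter_upwards [e1, hnb] with z hz hz2 using (e0 z hz2 hz).2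
    rw [e2.deriv_eq]
    exact ((χ.q_an _ hfU).differentiableAt.hasFDerivAt.comp_hasDerivAt (0 : ℂ) hfa.differentiableAt.hasDerivAt).deriv
  obtain ⟨a1, a2, a3⟩ := hcomp ψ g hψ hψU hψg
  have hall : ∀ᶠ n in l, F n 0 ∈ χ.U ∧ χ.q (F n 0) = χ.q (φ n 0) ∧ deriv (fun z => χ.q (F n z)) 0 = fderiv ℂ χ.q (φ n 0) (deriv (φ n) 0) := by
    filter_upwards [hφ, hφU] with n hn hn2
    exact hcomp (φ n) (F n) hn.1 hn2 hn.2
  refine ⟨hall.mono fun n hn => hn.1, ?_, ?_⟩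
  · rw [a2]
    exact ((hqa.continuousAt.tendsto).comp h1).congr' (hall.mono fun n hn => hn.2.1.symm)
  · rw [a3]
    have h3 : Tendsto (fun n => fderiv ℂ χ.q (φ n 0)) l (𝓝 (fderiv ℂ χ.q (ψ 0))) := (hqa.fderiv.continuousAt.tendsto).comp h1
    have h4 : Tendsto (fun n => (fderiv ℂ χ.q (φ n 0)) (deriv (φ n) 0)) l (𝓝 ((fderiv ℂ χ.q (ψ 0)) (deriv ψ 0))) := by
      have h5 := (isBoundedBilinearMap_apply (𝕜 := ℂ) (E := EN N) (F := ℂ × ℂ)).continuous.tendsto (fderiv ℂ χ.q (ψ 0), deriv ψ 0)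
      exact h5.comp (h3.prodMk_nhds h2)
    exact h4.congr' (hall.mono fun n hn => hn.2.2.symm)

/-- near the origin the curves are in the chart -/
theorem coord_near (χ : Chart X) {l : Filter ℕ} {F : ℕ → ℂ → EN N} {g : ℂ → EN N} (hlim : LocLim l F g) (hU : g 0 ∈ χ.U)
    {V : Set (ℂ × ℂ)} (hV : IsOpen V) (hgV : χ.q (g 0) ∈ V) :
    ∃ r : ℝ, 0 < r ∧ (∀ z ∈ ball (0 : ℂ) r, g z ∈ χ.U ∧ χ.q (g z) ∈ V) ∧ (∀ᶠ n in l, ∀ z ∈ ball (0 : ℂ) r, F n z ∈ χ.U ∧ χ.q (F n z) ∈ V) ∧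
      ∀ (w : ℕ → ℂ) (w₀ : ℂ), w₀ ∈ ball (0 : ℂ) r → Tendsto w l (𝓝 w₀) → Tendsto (fun n => χ.q (F n (w n))) l (𝓝 (χ.q (g w₀))) := by
  obtain ⟨r, φ, ψ, hr, hφ, hψ, hψg, hconv⟩ := hlim 0
  have h0 : (0 : ℂ) ∈ ball (0 : ℂ) r := mem_ball_self hr
  have hnb : ball (0 : ℂ) r ∈ 𝓝 (0 : ℂ) := isOpen_ball.mem_nhds h0
  have hqsm : ∀ (x : EN N) (c : ℂ), c ≠ 0 → c • x ∈ χ.U → x ∈ χ.U ∧ χ.q x = χ.q (c • x) := by
    intro x c hc h
    have h1 := χ.smul_U _ h c⁻¹ (inv_ne_zero hc)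
    rw [smul_smul, inv_mul_cancel₀ hc, one_smul] at h1
    exact ⟨h1, (χ.q_smul _ h1 c hc).symm⟩
  have hqc : ContinuousOn χ.q χ.U := fun x hx => ((χ.q_an x hx).continuousAt).continuousWithinAt
  obtain ⟨W, hW⟩ : ∃ W : Set (EN N), W = χ.U ∩ χ.q ⁻¹' V := ⟨_, rfl⟩
  have hWo : IsOpen W := by rw [hW]; exact hqc.isOpen_inter_preimage χ.isOpen_U hV
  have hψW : ψ 0 ∈ W := by
    obtain ⟨b, hb, h1⟩ := hψg 0 h0
    rw [h1, hW]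
    refine ⟨χ.smul_U _ hU b hb, ?_⟩
    rw [Set.mem_preimage, χ.q_smul _ hU b hb]
    exact hgV
  have h1 : ∀ᶠ z in 𝓝 (0 : ℂ), ψ z ∈ W := (hψ.continuousOn.continuousAt hnb).eventually_mem (hWo.mem_nhds hψW)
  obtain ⟨r₁, hr₁, h2⟩ := Metric.eventually_nhds_iff_ball.mp (h1.and hnb)
  obtain ⟨r₂, hr₂⟩ : ∃ r₂ : ℝ, r₂ = r₁ / 2 := ⟨_, rfl⟩
  have hr20 : 0 < r₂ := by rw [hr₂]; positivity
  have hsub : ∀ z ∈ closedBall (0 : ℂ) r₂, ψ z ∈ W ∧ z ∈ ball (0 : ℂ) r := fun z hz => h2 z (closedBall_subset_ball (by linarith) hz)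
  have hconv2 : TendstoUniformlyOn φ ψ l (closedBall 0 r₂) :=
    (tendstoLocallyUniformlyOn_iff_tendstoUniformlyOn_of_compact (isCompact_closedBall _ _)).1 (hconv.mono fun z hz => (hsub z hz).2)
  have hcpt : IsCompact (ψ '' closedBall 0 r₂) :=
    (isCompact_closedBall _ _).image_of_continuousOn (hψ.continuousOn.mono fun z hz => (hsub z hz).2)
  obtain ⟨δ, hδ, hδW⟩ := hcpt.exists_thickening_subset_open hWo (by
    rintro _ ⟨z, hz, rfl⟩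
    exact (hsub z hz).1)
  rw [Metric.tendstoUniformlyOn_iff] at hconv2
  have h3 : ∀ᶠ n in l, ∀ z ∈ closedBall (0 : ℂ) r₂, φ n z ∈ W := by
    filter_upwards [hconv2 δ hδ] with n hn z hz
    apply hδW
    rw [Metric.mem_thickening_iff]
    exact ⟨ψ z, ⟨z, hz, rfl⟩, by rw [dist_comm]; exact hn z hz⟩
  rw [hW] at h3 hsub
  refine ⟨r₂, hr20, fun z hz => ?_, ?_, fun w w₀ hw₀ hw => ?_⟩
  · obtain ⟨⟨a1, a2⟩, a3⟩ := hsub z (ball_subset_closedBall hz)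
    obtain ⟨b, hb, h4⟩ := hψg z a3
    rw [Set.mem_preimage] at a2
    rw [h4] at a1 a2
    obtain ⟨h5, h6⟩ := hqsm _ b hb a1
    rw [h6]
    exact ⟨h5, a2⟩
  · filter_upwards [h3, hφ] with n hn hn2 z hz
    obtain ⟨a1, a2⟩ := hn z (ball_subset_closedBall hz)
    obtain ⟨b, hb, h4⟩ := hn2.2 z (hsub z (ball_subset_closedBall hz)).2
    rw [Set.mem_preimage] at a2
    rw [h4] at a1 a2
    obtain ⟨h5, h6⟩ := hqsm _ b hb a1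
    rw [h6]
    exact ⟨h5, a2⟩
  · obtain ⟨⟨a1, a2⟩, a3⟩ := hsub w₀ (ball_subset_closedBall hw₀)
    have h4 : Tendsto (fun n => φ n (w n)) l (𝓝 (ψ w₀)) :=
      hconv.tendsto_comp (hψ.continuousOn w₀ a3) a3 (tendsto_nhdsWithin_iff.2 ⟨hw, hw.eventually (isOpen_ball.mem_nhds a3)⟩)
    have h5 : Tendsto (fun n => χ.q (φ n (w n))) l (𝓝 (χ.q (ψ w₀))) := ((χ.q_an _ a1).continuousAt.tendsto).comp h4
    have h6 : χ.q (g w₀) = χ.q (ψ w₀) := by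
      obtain ⟨b, hb, h7⟩ := hψg w₀ a3
      rw [h7] at a1 ⊢
      exact (hqsm _ b hb a1).2
    rw [h6]
    refine h5.congr' ?_
    filter_upwards [h3, hφ, hw.eventually (isOpen_ball.mem_nhds hw₀)] with n hn hn2 hn3
    obtain ⟨b1, b2⟩ := hn (w n) (ball_subset_closedBall hn3)
    obtain ⟨b, hb, h7⟩ := hn2.2 (w n) (hsub _ (ball_subset_closedBall hn3)).2
    rw [h7] at b1 ⊢
    exact ((hqsm _ b hb b1).2).symm

end Pool.Agent.H22.WB
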