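import Pool.Agent.H14.PP.FormTrans
import Pool.Agent.H14.PP.NodeGerm
import Pool.Agent.H22.WB.Rep

/-!
# WB DCh: charts at the smooth points of the boundary

`X` is the cone of a smooth projective surface, `q` a form of degree `d`, `Ω` a section of `M (K + D) - H` over the complement
of `D = {q = 0}` (with poles along `D`).  In a boundary chart `D` is the axis `y = 0`, and the function
`|y| ‖Ω‖ ^ (1 / M) (‖q‖) ^ (-α)` has a continuous extension `Γ` to the axis, which is there the absolute value of a holomorphic section of a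
negative power of the hyperplane bundle (`axis`), not identically zero.
The exponent `α` and the values `Γ` on the axis (in the sense of `comp_eq`) do not depend on the chart.
-/

set_option autoImplicit false

open Topology Filter Metric

namespace Pool.Agent.H22.WB

open Pool.Agent.H36.BP (EN fs wd)
open Pool.Agent.H14.PP (IsCone Chart CurveAt Form IsOpenPart aCoef ACoef jac rho)
open Pool.Agent.H62.EF (Charts)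

variable {N : ℕ} {X : Set (EN N)} {q : EN N → ℂ} {d M : ℕ}

/-- the complement of `{q = 0}` -/
def Kq (X : Set (EN N)) (q : EN N → ℂ) : Set (EN N) := {x | x ∈ X ∧ q x ≠ 0}

theorem isOpenPart_Kq (hX : IsCone X) (hq : Differentiable ℂ q) (hhom : ∀ (c : ℂ) (x : EN N), q (c • x) = c ^ d * q x) :
    IsOpenPart X (Kq X q) where
  subset _ hx := hx.1
  smul_mem x hx c hc := ⟨hX.smul_mem x hx.1 c hc, by rw [hhom]; exact mul_ne_zero (pow_ne_zero _ hc) hx.2⟩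
  rel_open x hx := by
    filter_upwards [hq.continuous.continuousAt.eventually_ne hx.2] with y hy hyX
    exact ⟨hyX, hy⟩

/-- a boundary chart -/
structure BChart (Ω : Form (Kq X q) M 1) (d : ℕ) (α : ℝ) where
  χ : Chart X
  ρ : ℝ
  Γ : ℂ × ℂ → ℝ
  h : ℂ → ℂ
  E : ℕ
  m : ℕ
  ρ_pos : 0 < ρ
  ρ_le : ρ ≤ 2
  E_pos : 0 < E
  m_pos : 0 < m
  zero : ∀ p ∈ ball (0 : ℂ × ℂ) ρ, q (χ.σ p) = 0 ↔ p.2 = 0
  cont : ContinuousOn Γ (ball 0 ρ)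
  nonneg : ∀ p ∈ ball (0 : ℂ × ℂ) ρ, 0 ≤ Γ p
  eq : ∀ p ∈ ball (0 : ℂ × ℂ) ρ, p.2 ≠ 0 → Γ p = ‖p.2‖ * ACoef Ω χ p * rho q d (χ.σ p) ^ (-α)
  h_an : ∀ x ∈ ball (0 : ℂ) ρ, AnalyticAt ℂ h x
  h_ne : ∃ x ∈ ball (0 : ℂ) ρ, h x ≠ 0
  axis : ∀ x ∈ ball (0 : ℂ) ρ, Γ (x, 0) ^ E = ‖h x‖ * ‖χ.σ (x, 0)‖ ^ m

variable {Ω : Form (Kq X q) M 1} {α α' : ℝ}

theorem BChart.ball_two (B : BChart Ω d α) {p : ℂ × ℂ} (hp : p ∈ ball (0 : ℂ × ℂ) B.ρ) : p ∈ ball (0 : ℂ × ℂ) 2 :=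
  ball_subset_ball B.ρ_le hp

theorem mem_ball_axis {x : ℂ} {r : ℝ} : ((x, 0) : ℂ × ℂ) ∈ ball (0 : ℂ × ℂ) r ↔ x ∈ ball (0 : ℂ) r := by
  rw [mem_ball_zero_iff, mem_ball_zero_iff, Prod.norm_def]
  simp

theorem BChart.axis_ne (hX : IsCone X) (B : BChart Ω d α) {x : ℂ} (hx : x ∈ ball (0 : ℂ) B.ρ) : B.Γ (x, 0) ≠ 0 ↔ B.h x ≠ 0 := by
  have h1 := B.axis x hx
  have h2 : ‖B.χ.σ (x, 0)‖ ^ B.m ≠ 0 := by
    refine pow_ne_zero _ (norm_ne_zero_iff.2 ?_)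
    exact B.χ.sigma_ne_zero hX (B.ball_two (mem_ball_axis.2 hx))
  constructor
  · intro h3 h4
    rw [h4, norm_zero, zero_mul] at h1
    exact h3 (pow_eq_zero_iff B.E_pos.ne' |>.1 h1)
  · intro h3 h4
    rw [h4, zero_pow B.E_pos.ne'] at h1
    exact mul_ne_zero (norm_ne_zero_iff.2 h3) h2 h1.symm

/-- the change of charts near a point of the axis -/
theorem BChart.lim (hX : IsCone X) (hq : Differentiable ℂ q) (hhom : ∀ (c : ℂ) (x : EN N), q (c • x) = c ^ d * q x)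
    (hM : 1 ≤ M) (B : BChart Ω d α) (B' : BChart Ω d α') {a : ℂ}
    (ha : a ∈ ball (0 : ℂ) B'.ρ) (hU : B'.χ.σ (a, 0) ∈ B.χ.U) (hb : B.χ.q (B'.χ.σ (a, 0)) ∈ ball (0 : ℂ × ℂ) B.ρ) :
    (fderiv ℂ (fun y => B.χ.q (B'.χ.σ y)) (a, 0) (1, 0)).1 ≠ 0 ∧
    ∃ β : ℂ, β ≠ 0 ∧
      Tendsto (fun t : ℂ => B'.Γ (a, t) * ‖t⁻¹ * (B.χ.q (B'.χ.σ (a, t))).2‖) (𝓝[≠] 0) (𝓝 (B'.Γ (a, 0) * ‖β‖)) ∧
      Tendsto (fun t : ℂ => ‖jac (fun y => B.χ.q (B'.χ.σ y)) (a, t)‖ * B.Γ (B.χ.q (B'.χ.σ (a, t)))) (𝓝[≠] 0)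
        (𝓝 (‖(fderiv ℂ (fun y => B.χ.q (B'.χ.σ y)) (a, 0) (1, 0)).1‖ * ‖β‖ * B.Γ (B.χ.q (B'.χ.σ (a, 0))))) ∧
      Tendsto (fun t : ℂ => rho q d (B'.χ.σ (a, t))) (𝓝[≠] 0) (𝓝 0) ∧
      ∀ᶠ t in 𝓝[≠] (0 : ℂ), 0 < rho q d (B'.χ.σ (a, t)) ∧
        B'.Γ (a, t) * ‖t⁻¹ * (B.χ.q (B'.χ.σ (a, t))).2‖ * rho q d (B'.χ.σ (a, t)) ^ α' =
          ‖jac (fun y => B.χ.q (B'.χ.σ y)) (a, t)‖ * B.Γ (B.χ.q (B'.χ.σ (a, t))) * rho q d (B'.χ.σ (a, t)) ^ α := by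
  have hK := isOpenPart_Kq hX hq hhom
  have hp : ((a, 0) : ℂ × ℂ) ∈ ball (0 : ℂ × ℂ) B'.ρ := mem_ball_axis.2 ha
  have hp2 := B'.ball_two hp
  obtain ⟨τ, hτ⟩ : ∃ τ : ℂ × ℂ → ℂ × ℂ, τ = fun y => B.χ.q (B'.χ.σ y) := ⟨_, rfl⟩
  have hτv : ∀ y, B.χ.q (B'.χ.σ y) = τ y := fun y => by rw [hτ]
  have hτa : AnalyticAt ℂ τ (a, 0) := by
    rw [hτ]
    exact AnalyticAt.fun_comp (g := B.χ.q) (f := B'.χ.σ) (B.χ.q_an _ hU) (B'.χ.σ_an _ hp2)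
  rw [hτv] at hb
  simp only [hτv]
  have hjac0 : jac τ (a, 0) ≠ 0 := by
    rw [hτ]
    exact Pool.Agent.H14.PP.jac_ne_zero hX B'.χ B.χ hp2 hU
  -- near the point
  have hnear : ∀ᶠ y in 𝓝 ((a, 0) : ℂ × ℂ), y ∈ ball (0 : ℂ × ℂ) B'.ρ ∧ B'.χ.σ y ∈ B.χ.U ∧ τ y ∈ ball (0 : ℂ × ℂ) B.ρ := by
    have h1 : ∀ᶠ y in 𝓝 ((a, 0) : ℂ × ℂ), y ∈ ball (0 : ℂ × ℂ) B'.ρ := isOpen_ball.mem_nhds hp
    have h2 : ∀ᶠ y in 𝓝 ((a, 0) : ℂ × ℂ), B'.χ.σ y ∈ B.χ.U :=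
      (B'.χ.σ_an _ hp2).continuousAt.eventually_mem (B.χ.isOpen_U.mem_nhds hU)
    have h3 : ∀ᶠ y in 𝓝 ((a, 0) : ℂ × ℂ), τ y ∈ ball (0 : ℂ × ℂ) B.ρ :=
      hτa.continuousAt.eventually_mem (isOpen_ball.mem_nhds hb)
    filter_upwards [h1, h2, h3] with y e1 e2 e3 using ⟨e1, e2, e3⟩
  have hzero : ∀ y, y ∈ ball (0 : ℂ × ℂ) B'.ρ → B'.χ.σ y ∈ B.χ.U → τ y ∈ ball (0 : ℂ × ℂ) B.ρ → ((τ y).2 = 0 ↔ y.2 = 0) := by
    intro y h1 h2 h3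
    obtain ⟨-, c, hc, h4⟩ := B.χ.surj _ (B'.χ.σ_mem y (B'.ball_two h1)).1 h2
    rw [← B.zero _ h3, ← B'.zero y h1]
    rw [hτv] at h4
    conv_rhs => rw [h4, hhom]
    rw [mul_eq_zero]
    constructor
    · exact Or.inr
    · rintro (h5 | h5)
      · exact absurd h5 (pow_ne_zero _ hc)
      · exact h5
  -- the lines
  have hlx : Tendsto (fun x : ℂ => ((x, 0) : ℂ × ℂ)) (𝓝 a) (𝓝 (a, 0)) := by
    have h3 : ContinuousAt (fun x : ℂ => ((x, 0) : ℂ × ℂ)) a := by fun_prop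
    exact h3
  have hly : Tendsto (fun t : ℂ => ((a, t) : ℂ × ℂ)) (𝓝 0) (𝓝 (a, 0)) := by
    have h3 : ContinuousAt (fun t : ℂ => ((a, t) : ℂ × ℂ)) 0 := by fun_prop
    exact h3
  have hD : HasFDerivAt τ (fderiv ℂ τ (a, 0)) (a, 0) := hτa.differentiableAt.hasFDerivAt
  have hdx : (fderiv ℂ τ (a, 0) (1, 0)).2 = 0 := by
    have e1 : HasDerivAt (fun x : ℂ => ((x, 0) : ℂ × ℂ)) ((1, 0) : ℂ × ℂ) a := (hasDerivAt_id a).prodMk (hasDerivAt_const a (0 : ℂ))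
    have e2 : HasDerivAt (fun x : ℂ => τ (x, 0)) (fderiv ℂ τ (a, 0) (1, 0)) a := hD.comp_hasDerivAt a e1
    have e3 : HasDerivAt (fun x : ℂ => (τ (x, 0)).2) (fderiv ℂ τ (a, 0) (1, 0)).2 a := e2.snd
    have e4 : HasDerivAt (fun x : ℂ => (τ (x, 0)).2) 0 a := by
      refine (hasDerivAt_const a (0 : ℂ)).congr_of_eventuallyEq ?_
      filter_upwards [hlx.eventually hnear] with x hx
      exact (hzero _ hx.1 hx.2.1 hx.2.2).2 rfl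
    exact e3.unique e4
  obtain ⟨β, hβ⟩ : ∃ β : ℂ, β = (fderiv ℂ τ (a, 0) (0, 1)).2 := ⟨_, rfl⟩
  have hjac : jac τ (a, 0) = (fderiv ℂ τ (a, 0) (1, 0)).1 * β := by
    unfold jac
    rw [hdx, mul_zero, sub_zero, hβ]
  have hA0 : (fderiv ℂ τ (a, 0) (1, 0)).1 ≠ 0 := fun h0 => hjac0 (by rw [hjac, h0, zero_mul])
  have hβ0 : β ≠ 0 := fun h0 => hjac0 (by rw [hjac, h0, mul_zero])
  have hτ2 : (τ (a, 0)).2 = 0 := by
    have h1 := hnear.self_of_nhds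
    exact (hzero _ h1.1 h1.2.1 h1.2.2).2 rfl
  have hslope : Tendsto (fun t : ℂ => t⁻¹ * (τ (a, t)).2) (𝓝[≠] 0) (𝓝 β) := by
    have e1 : HasDerivAt (fun t : ℂ => ((a, t) : ℂ × ℂ)) ((0, 1) : ℂ × ℂ) 0 := (hasDerivAt_const (0 : ℂ) a).prodMk (hasDerivAt_id (0 : ℂ))
    have e2 : HasDerivAt (fun t : ℂ => τ (a, t)) (fderiv ℂ τ (a, 0) (0, 1)) 0 := hD.comp_hasDerivAt (0 : ℂ) e1
    have e3 : HasDerivAt (fun t : ℂ => (τ (a, t)).2) β 0 := by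
      rw [hβ]
      exact e2.snd
    have e4 := e3.tendsto_slope_zero
    refine e4.congr fun t => ?_
    rw [zero_add, hτ2, sub_zero, smul_eq_mul]
  have hΓ' : Tendsto (fun t : ℂ => B'.Γ (a, t)) (𝓝[≠] 0) (𝓝 (B'.Γ (a, 0))) := by
    have e1 : ContinuousAt B'.Γ (a, 0) := B'.cont.continuousAt (isOpen_ball.mem_nhds hp)
    exact (e1.tendsto.comp hly).mono_left nhdsWithin_le_nhds
  have hτt : Tendsto (fun t : ℂ => τ (a, t)) (𝓝 0) (𝓝 (τ (a, 0))) := hτa.continuousAt.tendsto.comp hly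
  have hΓ : Tendsto (fun t : ℂ => B.Γ (τ (a, t))) (𝓝[≠] 0) (𝓝 (B.Γ (τ (a, 0)))) := by
    have e1 : ContinuousAt B.Γ (τ (a, 0)) := B.cont.continuousAt (isOpen_ball.mem_nhds hb)
    exact (e1.tendsto.comp hτt).mono_left nhdsWithin_le_nhds
  have hjt : Tendsto (fun t : ℂ => ‖jac τ (a, t)‖) (𝓝[≠] 0) (𝓝 (‖(fderiv ℂ τ (a, 0) (1, 0)).1‖ * ‖β‖)) := by
    rw [← norm_mul, ← hjac]
    have e1 : ContinuousAt (fderiv ℂ τ) (a, 0) := hτa.fderiv.continuousAt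
    have e2 : ∀ v : ℂ × ℂ, ContinuousAt (fun y => fderiv ℂ τ y v) (a, 0) := fun v => e1.clm_apply continuousAt_const
    have e3 : ContinuousAt (jac τ) (a, 0) := by
      unfold jac
      exact ((e2 (1, 0)).fst.mul (e2 (0, 1)).snd).sub ((e2 (0, 1)).fst.mul (e2 (1, 0)).snd)
    exact ((e3.tendsto.comp hly).norm).mono_left nhdsWithin_le_nhds
  refine ⟨hA0, β, hβ0, hΓ'.mul hslope.norm, hjt.mul hΓ, ?_, ?_⟩
  · have e0 : B'.χ.σ (a, 0) ≠ 0 := B'.χ.sigma_ne_zero hX hp2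
    have e1 : Tendsto (fun t : ℂ => B'.χ.σ (a, t)) (𝓝 0) (𝓝 (B'.χ.σ (a, 0))) := (B'.χ.σ_an _ hp2).continuousAt.tendsto.comp hly
    have e2 : Tendsto (fun t : ℂ => ‖q (B'.χ.σ (a, t))‖ / ‖B'.χ.σ (a, t)‖ ^ d) (𝓝 0) (𝓝 (‖q (B'.χ.σ (a, 0))‖ / ‖B'.χ.σ (a, 0)‖ ^ d)) :=
      ((hq.continuous.tendsto _).comp e1).norm.div (e1.norm.pow d) (pow_ne_zero _ (norm_ne_zero_iff.2 e0))
    rw [(B'.zero _ hp).2 rfl, norm_zero, zero_div] at e2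
    exact e2.mono_left nhdsWithin_le_nhds
  · have e0 : ∀ᶠ t in 𝓝[≠] (0 : ℂ), t ≠ 0 := eventually_mem_nhdsWithin
    filter_upwards [(hly.eventually hnear).filter_mono nhdsWithin_le_nhds, e0] with t ht ht0
    obtain ⟨h1, h2, h3⟩ := ht
    have h1' := B'.ball_two h1
    have hm := B'.χ.σ_mem _ h1'
    have hq0 : q (B'.χ.σ (a, t)) ≠ 0 := fun h => ht0 ((B'.zero _ h1).1 h)
    have hτ0 : (τ (a, t)).2 ≠ 0 := fun h => ht0 ((hzero _ h1 h2 h3).1 h)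
    have hrho : 0 < rho q d (B'.χ.σ (a, t)) := by
      unfold rho
      have e4 := B'.χ.sigma_ne_zero hX h1'
      have e5 : 0 < ‖q (B'.χ.σ (a, t))‖ := norm_pos_iff.2 hq0
      have e6 : 0 < ‖B'.χ.σ (a, t)‖ := norm_pos_iff.2 e4
      positivity
    refine ⟨hrho, ?_⟩
    have hrho2 : rho q d (B.χ.σ (τ (a, t))) = rho q d (B'.χ.σ (a, t)) := by
      have e7 := Pool.Agent.H14.PP.Chart.rho_sigma (Q := q) (D := d) (fun c x => by rw [smul_eq_mul]; exact hhom c x) B.χ hm.1 h2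
      rw [hτv] at e7
      exact e7
    have e8 := B'.eq (a, t) h1 ht0
    have e9 := B.eq (τ (a, t)) h3 hτ0
    have e10 := Pool.Agent.H14.PP.ACoef_trans hX hK hM Ω B'.χ B.χ h1' ⟨hm.1, hq0⟩ h2
    rw [hτv, ← hτ] at e10
    rw [hrho2] at e9
    rw [e8, e9, e10]
    simp only
    have htn : ‖t‖ ≠ 0 := norm_ne_zero_iff.2 ht0
    have r1 : rho q d (B'.χ.σ (a, t)) ^ (-α') * rho q d (B'.χ.σ (a, t)) ^ α' = 1 := by
      rw [← Real.rpow_add hrho, neg_add_cancel, Real.rpow_zero]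
    have r2 : rho q d (B'.χ.σ (a, t)) ^ (-α) * rho q d (B'.χ.σ (a, t)) ^ α = 1 := by
      rw [← Real.rpow_add hrho, neg_add_cancel, Real.rpow_zero]
    rw [norm_mul, norm_inv]
    calc ‖t‖ * (‖jac τ (a, t)‖ * ACoef Ω B.χ (τ (a, t))) * rho q d (B'.χ.σ (a, t)) ^ (-α') * (‖t‖⁻¹ * ‖(τ (a, t)).2‖) *
        rho q d (B'.χ.σ (a, t)) ^ α' = (‖t‖ * ‖t‖⁻¹) * (‖jac τ (a, t)‖ * ACoef Ω B.χ (τ (a, t))) * ‖(τ (a, t)).2‖ *
          (rho q d (B'.χ.σ (a, t)) ^ (-α') * rho q d (B'.χ.σ (a, t)) ^ α') := by ring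
      _ = (‖jac τ (a, t)‖ * ACoef Ω B.χ (τ (a, t))) * ‖(τ (a, t)).2‖ := by rw [r1, mul_inv_cancel₀ htn, one_mul, mul_one]
      _ = (‖jac τ (a, t)‖ * ACoef Ω B.χ (τ (a, t))) * ‖(τ (a, t)).2‖ *
          (rho q d (B'.χ.σ (a, t)) ^ (-α) * rho q d (B'.χ.σ (a, t)) ^ α) := by rw [r2, mul_one]
      _ = _ := by ring

end Pool.Agent.H22.WB
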