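import Mathlib

/-!
# WB RealL: computations with real powers
-/

set_option autoImplicit false

namespace Pool.Agent.H22.WB

theorem real_eq {M k l d : ℕ} (hM : 1 ≤ M) (hk : 1 ≤ k) {s W S U : ℝ} (hs : 0 < s) (hW : 0 ≤ W) (hS : 0 < S) (hU : 0 < U) :
    s * ((s ^ l * W / s ^ M) ^ (1 / (M : ℝ)) * S ^ (((1 : ℕ) : ℝ) / M)) * (s ^ k * U / S ^ d) ^ (-((l : ℝ) / (k * M))) =
      W ^ (1 / (M : ℝ)) * S ^ (((1 : ℕ) : ℝ) / M) * (U / S ^ d) ^ (-((l : ℝ) / (k * M))) := by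
  have hM' : (M : ℝ) ≠ 0 := by positivity
  have hk' : (k : ℝ) ≠ 0 := by positivity
  have e1 : (s ^ l * W / s ^ M) ^ (1 / (M : ℝ)) = s ^ ((l : ℝ) / M) * W ^ (1 / (M : ℝ)) / s := by
    rw [Real.div_rpow (by positivity) (by positivity), Real.mul_rpow (by positivity) hW]
    congr 1
    · congr 1
      rw [← Real.rpow_natCast, ← Real.rpow_mul hs.le]
      congr 1
      ring
    · rw [← Real.rpow_natCast, ← Real.rpow_mul hs.le]
      have : (M : ℝ) * (1 / M) = 1 := by field_simp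
      rw [this, Real.rpow_one]
  have e2 : (s ^ k * U / S ^ d) ^ (-((l : ℝ) / (k * M))) = s ^ (-((l : ℝ) / M)) * (U / S ^ d) ^ (-((l : ℝ) / (k * M))) := by
    rw [mul_div_assoc, Real.mul_rpow (by positivity) (by positivity)]
    congr 1
    rw [← Real.rpow_natCast, ← Real.rpow_mul hs.le]
    congr 1
    field_simp
  have e3 : s ^ ((l : ℝ) / M) * s ^ (-((l : ℝ) / M)) = 1 := by
    rw [← Real.rpow_add hs, add_neg_cancel, Real.rpow_zero]
  rw [e1, e2]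
  calc s * (s ^ ((l : ℝ) / M) * W ^ (1 / (M : ℝ)) / s * S ^ (((1 : ℕ) : ℝ) / M)) *
      (s ^ (-((l : ℝ) / M)) * (U / S ^ d) ^ (-((l : ℝ) / (k * M)))) =
      (s / s) * (s ^ ((l : ℝ) / M) * s ^ (-((l : ℝ) / M))) * (W ^ (1 / (M : ℝ)) * S ^ (((1 : ℕ) : ℝ) / M) * (U / S ^ d) ^ (-((l : ℝ) / (k * M)))) := by
        ring
    _ = _ := by rw [e3, div_self hs.ne', one_mul, one_mul]

theorem real_axis {M k l d : ℕ} (hM : 1 ≤ M) (hk : 1 ≤ k) {W S U : ℝ} (hW : 0 ≤ W) (hS : 0 < S) (hU : 0 < U) :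
    (W ^ (1 / (M : ℝ)) * S ^ (((1 : ℕ) : ℝ) / M) * (U / S ^ d) ^ (-((l : ℝ) / (k * M)))) ^ (M * k) = W ^ k / U ^ l * S ^ (k + d * l) := by
  have hM' : (M : ℝ) ≠ 0 := by positivity
  have hk' : (k : ℝ) ≠ 0 := by positivity
  have e1 : (W ^ (1 / (M : ℝ))) ^ (M * k) = W ^ k := by
    rw [pow_mul, ← Real.rpow_natCast (W ^ (1 / (M : ℝ))), ← Real.rpow_mul hW]
    have : (1 / (M : ℝ)) * M = 1 := by field_simp
    rw [this, Real.rpow_one]
  have e2 : (S ^ (((1 : ℕ) : ℝ) / M)) ^ (M * k) = S ^ k := by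
    rw [pow_mul, ← Real.rpow_natCast (S ^ (((1 : ℕ) : ℝ) / M)), ← Real.rpow_mul hS.le]
    have : (((1 : ℕ) : ℝ) / (M : ℝ)) * M = 1 := by
      push_cast
      field_simp
    rw [this, Real.rpow_one]
  have e3 : ((U / S ^ d) ^ (-((l : ℝ) / (k * M)))) ^ (M * k) = (U / S ^ d)⁻¹ ^ l := by
    have h0 : 0 < U / S ^ d := by positivity
    rw [← Real.rpow_natCast ((U / S ^ d) ^ (-((l : ℝ) / (k * M)))), ← Real.rpow_mul h0.le]
    have : (-((l : ℝ) / (k * M))) * ((M * k : ℕ) : ℝ) = -(l : ℝ) := by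
      push_cast
      field_simp
    rw [this, Real.rpow_neg h0.le, Real.rpow_natCast, inv_pow]
  rw [mul_pow, mul_pow, e1, e2, e3, inv_div, div_pow, pow_add, pow_mul]
  ring

end Pool.Agent.H22.WB
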