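import Pool.Agent.H22.WB.Ord
import Pool.Agent.H22.WB.Cmp
import Pool.Agent.H22.WB.Coord
import Pool.Agent.H22.WB.RealL
import Pool.Agent.H36.BPL.Defs

/-!
# WB Ex: there is a boundary chart at the points of the limit curves in the boundary
-/

set_option autoImplicit false

open Topology Filter Metric

namespace Pool.Agent.H22.WB

open Pool.Agent.H36.BP (EN fs wd)
open Pool.Agent.H14.PP (IsCone Chart CurveAt Form IsOpenPart aCoef ACoef jac rho aCoef_ne_zero)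
open Pool.Agent.H62.EF (Charts pr)
open Pool.Agent.H5.BD (BC)
open Pool.Agent.H22.WL (LocLim)
open Pool.Agent.H36.BPL (PoleLE)

variable {N : ℕ} {X : Set (EN N)} {q : EN N → ℂ} {d M : ℕ} {c L : ℝ} {Ω : Form (Kq X q) M 1} {T : Set (EN N)}

/-- **The boundary is smooth along the limit curves.** -/
theorem unit_of_limit (hX : IsCone X) (hhom : ∀ (c : ℂ) (x : EN N), q (c • x) = c ^ d * q x)
    (hc : 0 < c) (hL : 0 < L) {g : ℂ → EN N} (hg : g ∈ Bd X q c L) (χ : Chart X) (hU : g 0 ∈ χ.U) (hq0 : χ.q (g 0) = 0)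
    (hax : ∀ᶠ z in 𝓝 (0 : ℂ), (χ.q (g z)).2 = 0) {k : ℕ} {u : ℂ × ℂ → ℂ} (hu : AnalyticAt ℂ u 0)
    (hfu : ∀ᶠ p in 𝓝 (0 : ℂ × ℂ), q (χ.σ p) = p.2 ^ k * u p) (hne : ∃ᶠ x in 𝓝 (0 : ℂ), u (x, 0) ≠ 0) : u 0 ≠ 0 := by
  obtain ⟨F, hF, hFq, hlim⟩ := Bd.approx hX hL hg
  obtain ⟨η, hη, hall⟩ := Metric.eventually_nhds_iff_ball.mp (hu.eventually_analyticAt.and hfu)
  obtain ⟨r, hr, h1, h2, h3⟩ := coord_near χ hlim hU (V := ball 0 η) isOpen_ball (by rw [hq0]; exact mem_ball_self hη)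
  have hcur : ∀ (G : ℂ → EN N), G ∈ BC X c L → (∀ z ∈ ball (0 : ℂ) r, G z ∈ χ.U ∧ χ.q (G z) ∈ ball (0 : ℂ × ℂ) η) →
      DifferentiableOn ℂ (fun z => u (χ.q (G z))) (ball 0 r) := by
    intro G hG h z hz
    obtain ⟨e1, e2⟩ := h z hz
    have e3 := (χ.curve hX (bc_curve hG z) e1).1
    have e4 : AnalyticAt ℂ (fun z => u (χ.q (G z))) z := AnalyticAt.fun_comp (g := u) (f := fun z => χ.q (G z)) (hall _ e2).1 e3
    exact e4.differentiableAt.differentiableWithinAt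
  have h4 := Pool.Agent.H62.Log.hurwitz (hyperfilter ℕ) (φ := fun n z => u (χ.q (F n z))) (ψ := fun z => u (χ.q (g z))) (a := 0) (r := r)
    (h2.mono fun n hn => hcur _ (hF n) hn)
    (h2.mono fun n hn z hz => by
      obtain ⟨e1, e2⟩ := hn z hz
      obtain ⟨-, b, hb, e3⟩ := χ.surj _ ((hF n).2.1 z) e1
      intro e4
      have e5 : u (χ.q (F n z)) = 0 := e4
      apply hFq n z
      rw [e3, hhom, (hall _ e2).2, e5, mul_zero, mul_zero])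
    (hcur _ hg.1 h1)
    (fun w w₀ hw₀ hw => by
      have e1 := h3 w w₀ hw₀ hw
      exact ((hall _ (h1 w₀ hw₀).2).1.continuousAt.tendsto).comp e1)
  have h5 : (0 : ℂ) ∈ ball (0 : ℂ) r := mem_ball_self hr
  rcases h4 with h4 | h4
  · exfalso
    -- the first coordinate
    obtain ⟨γ, hγ⟩ : ∃ γ : ℂ → ℂ, γ = fun z => (χ.q (g z)).1 := ⟨_, rfl⟩
    have hγd : HasDerivAt (fun z => χ.q (g z)) (deriv (fun z => χ.q (g z)) 0) 0 :=
      (χ.curve hX (bc_curve hg.1 0) hU).1.differentiableAt.hasDerivAt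
    have hd2 : (deriv (fun z => χ.q (g z)) 0).2 = 0 := by
      have a1 : HasDerivAt (fun z => (χ.q (g z)).2) (deriv (fun z => χ.q (g z)) 0).2 0 := hγd.snd
      exact a1.unique ((hasDerivAt_const (0 : ℂ) (0 : ℂ)).congr_of_eventuallyEq hax)
    have hd1 : (deriv (fun z => χ.q (g z)) 0).1 ≠ 0 := fun h => by
      have a1 := deriv_chart_ne hX χ (bc_curve hg.1 0) hU (ne_of_gt (lt_of_lt_of_le hc (hg.1.2.2 0).1))
      exact a1 (Prod.ext h hd2)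
    have hγ1 : HasDerivAt γ (deriv (fun z => χ.q (g z)) 0).1 0 := by
      rw [hγ]
      exact hγd.fst
    have hγt : Tendsto γ (𝓝[≠] 0) (𝓝[≠] 0) := by
      have a1 := hγ1.tendsto_nhdsNE hd1
      have a2 : γ 0 = 0 := by rw [hγ]; simp only; rw [hq0]; rfl
      rwa [a2] at a1
    have hua : AnalyticAt ℂ (fun x : ℂ => u (x, 0)) 0 := by
      have a1 : AnalyticAt ℂ (fun x : ℂ => ((x, 0) : ℂ × ℂ)) 0 := analyticAt_id.prod analyticAt_const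
      exact AnalyticAt.fun_comp (g := u) (f := fun x : ℂ => ((x, 0) : ℂ × ℂ)) hu a1
    have hev : ∀ᶠ x in 𝓝[≠] (0 : ℂ), u (x, 0) ≠ 0 := by
      rcases hua.eventually_eq_zero_or_eventually_ne_zero with a1 | a1
      · exact absurd (a1.mono fun x hx => not_not.2 hx) hne
      · exact a1
    have hrb : ∀ᶠ z in 𝓝 (0 : ℂ), z ∈ ball (0 : ℂ) r := isOpen_ball.mem_nhds h5
    obtain ⟨z, ⟨hz1, hz2⟩, hz3⟩ := (((hγt.eventually hev).and (hax.filter_mono nhdsWithin_le_nhds)).and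
      (hrb.filter_mono nhdsWithin_le_nhds)).exists
    apply hz1
    have a3 := h4 z hz3
    rw [hγ]
    simp only at a3 ⊢
    rwa [prod_eq_fst hz2] at a3
  · have h6 := h4 0 h5
    rwa [hq0] at h6

/-- **There is a boundary chart at the points of the limit curves.** -/
theorem exists_bchart (hX : IsCone X) (hch : Charts X) (hq : ∀ x, AnalyticAt ℂ q x) (hhom : ∀ (c : ℂ) (x : EN N), q (c • x) = c ^ d * q x)
    (hM : 1 ≤ M) (hpole : PoleLE X (Kq X q) M Ω.toFun) (hΩ : Ω.NoZeroOff T)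
    (hthin : ∀ χ : Chart X, ∃ᶠ p in 𝓝 (0 : ℂ × ℂ), q (χ.σ p) ≠ 0 ∧ χ.σ p ∉ T)
    (hc : 0 < c) (hL : 0 < L) {g : ℂ → EN N} (hg : g ∈ Bd X q c L) : ∃ (α : ℝ) (B : BChart Ω d α), B.At (g 0) := by
  have hqd : Differentiable ℂ q := fun x => (hq x).differentiableAt
  have hK := isOpenPart_Kq hX hqd hhom
  obtain ⟨χ, hU, hq0, hax⟩ := exists_straight hX hch (bc_curve hg.1 0) (ne_of_gt (lt_of_lt_of_le hc (hg.1.2.2 0).1))
  have h02 : (0 : ℂ × ℂ) ∈ ball (0 : ℂ × ℂ) 2 := mem_ball_self two_pos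
  have hσa : AnalyticAt ℂ χ.σ 0 := χ.σ_an 0 h02
  have hfa : AnalyticAt ℂ (fun p => q (χ.σ p)) 0 := AnalyticAt.fun_comp (g := q) (f := χ.σ) (hq _) hσa
  obtain ⟨k, u, hu, hfu, hne⟩ := exists_order hfa ((hthin χ).mono fun p hp => hp.1)
  have hu0 := unit_of_limit hX hhom hc hL hg χ hU hq0 hax hu hfu hne
  -- the multiplicity is positive
  have hqσ : q (χ.σ 0) = 0 := by
    obtain ⟨-, b, hb, e1⟩ := χ.surj _ (hg.1.2.1 0) hU
    rw [hq0] at e1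
    have e2 := hg.2.1 0
    rw [e1, hhom, mul_eq_zero] at e2
    exact e2.resolve_left (pow_ne_zero _ hb)
  have hk : 1 ≤ k := by
    rcases Nat.eq_zero_or_pos k with h | h
    · exfalso
      have e1 := hfu.self_of_nhds
      rw [hqσ, h, pow_zero, one_mul] at e1
      exact hu0 e1.symm
    · exact h
  -- the form
  have hmem2 : ∀ᶠ p in 𝓝 (0 : ℂ × ℂ), p ∈ ball (0 : ℂ × ℂ) 2 := isOpen_ball.mem_nhds h02
  have hune : ∀ᶠ p in 𝓝 (0 : ℂ × ℂ), u p ≠ 0 := hu.continuousAt.eventually_ne hu0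
  obtain ⟨b, hb, hbe⟩ := hpole.pow hσa (hmem2.mono fun p hp => (χ.σ_mem p hp).1) (g := fun p => p.2) analyticAt_snd (by
    filter_upwards [hfu, hune, hmem2] with p hp hp2 hp3 hpK
    have e1 : q (χ.σ p) = 0 := by
      by_contra hcon
      exact hpK ⟨(χ.σ_mem p hp3).1, hcon⟩
    rw [hp, mul_eq_zero] at e1
    exact pow_eq_zero_iff (by omega) |>.1 (e1.resolve_right hp2))
  have hbne : ∃ᶠ p in 𝓝 (0 : ℂ × ℂ), b p ≠ 0 := by
    refine ((hthin χ).and_eventually (hbe.and (hfu.and hmem2))).mono ?_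
    rintro p ⟨⟨e1, e2⟩, e3, e4, e5⟩
    have e6 : χ.σ p ∈ Kq X q := ⟨(χ.σ_mem p e5).1, e1⟩
    rw [e3 e6]
    refine mul_ne_zero (pow_ne_zero _ fun h => e1 ?_) (aCoef_ne_zero hX hK Ω χ hΩ e5 e6 e2)
    rw [e4, h, zero_pow (by omega), zero_mul]
  obtain ⟨l, w, hw, hbw, hwne⟩ := exists_order hb hbne
  -- the radius
  obtain ⟨R, hR, hall⟩ := Metric.eventually_nhds_iff_ball.mp
    (((((hu.eventually_analyticAt.and hfu).and hune).and hmem2).and (hw.eventually_analyticAt.and hbw)).and hbe)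
  obtain ⟨ρ, hρ⟩ : ∃ ρ : ℝ, ρ = min R 2 := ⟨_, rfl⟩
  have hρ0 : 0 < ρ := by rw [hρ]; exact lt_min hR two_pos
  have hρ2 : ρ ≤ 2 := by rw [hρ]; exact min_le_right _ _
  have hρR : ball (0 : ℂ × ℂ) ρ ⊆ ball (0 : ℂ × ℂ) R := ball_subset_ball (by rw [hρ]; exact min_le_left _ _)
  have hA : ∀ p ∈ ball (0 : ℂ × ℂ) ρ, AnalyticAt ℂ u p ∧ q (χ.σ p) = p.2 ^ k * u p ∧ u p ≠ 0 ∧ p ∈ ball (0 : ℂ × ℂ) 2 ∧
      AnalyticAt ℂ w p ∧ b p = p.2 ^ l * w p ∧ (χ.σ p ∈ Kq X q → b p = p.2 ^ M * aCoef Ω χ p) := by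
    intro p hp
    obtain ⟨⟨⟨⟨⟨e1, e2⟩, e3⟩, e4⟩, e5, e6⟩, e7⟩ := hall p (hρR hp)
    exact ⟨e1, e2, e3, e4, e5, e6, e7⟩
  have hzero : ∀ p ∈ ball (0 : ℂ × ℂ) ρ, q (χ.σ p) = 0 ↔ p.2 = 0 := by
    intro p hp
    obtain ⟨-, e2, e3, -⟩ := hA p hp
    rw [e2, mul_eq_zero]
    constructor
    · rintro (h | h)
      · exact pow_eq_zero_iff (by omega) |>.1 h
      · exact absurd h e3
    · intro h
      left
      rw [h, zero_pow (by omega)]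
  refine ⟨(l : ℝ) / (k * M), ⟨χ, ρ, fun p => ‖w p‖ ^ (1 / (M : ℝ)) * ‖χ.σ p‖ ^ (((1 : ℕ) : ℝ) / M) *
      (‖u p‖ / ‖χ.σ p‖ ^ d) ^ (-((l : ℝ) / (k * M))), fun x => w (x, 0) ^ k / u (x, 0) ^ l, M * k, k + d * l, hρ0, hρ2, Nat.mul_pos hM hk, by omega,
      hzero, ?_, ?_, ?_, ?_, ?_, ?_⟩, hg.1.2.1 0, hU, ?_⟩
  · intro p hp
    obtain ⟨e1, e2, e3, e4, e5, e6, e7⟩ := hA p hp
    have e8 : 0 < ‖χ.σ p‖ := norm_pos_iff.2 (χ.sigma_ne_zero hX e4)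
    have e9 : 0 < ‖u p‖ := norm_pos_iff.2 e3
    have c1 : ContinuousAt (fun p => ‖w p‖) p := e5.continuousAt.norm
    have c2 : ContinuousAt (fun p => ‖χ.σ p‖) p := (χ.σ_an p e4).continuousAt.norm
    have c3 : ContinuousAt (fun p => ‖u p‖) p := e1.continuousAt.norm
    refine ContinuousAt.continuousWithinAt (ContinuousAt.mul (ContinuousAt.mul ?_ ?_) ?_)
    · exact c1.rpow_const (Or.inr (by positivity))
    · exact c2.rpow_const (Or.inr (by positivity))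
    · exact (c3.div (c2.pow d) (pow_ne_zero _ e8.ne')).rpow_const (Or.inl (div_pos e9 (pow_pos e8 d)).ne')
  · intro p hp
    positivity
  · intro p hp hp2
    obtain ⟨e1, e2, e3, e4, e5, e6, e7⟩ := hA p hp
    have e8 : 0 < ‖χ.σ p‖ := norm_pos_iff.2 (χ.sigma_ne_zero hX e4)
    have e9 : 0 < ‖u p‖ := norm_pos_iff.2 e3
    have e10 : 0 < ‖p.2‖ := norm_pos_iff.2 hp2
    have e11 : χ.σ p ∈ Kq X q := ⟨(χ.σ_mem p e4).1, fun h => hp2 ((hzero p hp).1 h)⟩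
    have e12 : ‖aCoef Ω χ p‖ = ‖p.2‖ ^ l * ‖w p‖ / ‖p.2‖ ^ M := by
      have e13 := e7 e11
      rw [e6] at e13
      have e14 := congrArg norm e13
      rw [norm_mul, norm_mul, norm_pow, norm_pow] at e14
      rw [e14]
      field_simp
    have e15 := real_eq (M := M) (k := k) (l := l) (d := d) hM hk e10 (norm_nonneg (w p)) e8 e9
    rw [← e15]
    unfold ACoef rho
    rw [e12, e2, norm_mul, norm_pow]
  · intro x hx
    obtain ⟨e1, e2, e3, e4, e5, e6, e7⟩ := hA (x, 0) (mem_ball_axis.2 hx)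
    have a1 : AnalyticAt ℂ (fun x : ℂ => ((x, 0) : ℂ × ℂ)) x := analyticAt_id.prod analyticAt_const
    have a2 : AnalyticAt ℂ (fun x : ℂ => u (x, 0)) x := AnalyticAt.fun_comp (g := u) (f := fun x : ℂ => ((x, 0) : ℂ × ℂ)) e1 a1
    have a3 : AnalyticAt ℂ (fun x : ℂ => w (x, 0)) x := AnalyticAt.fun_comp (g := w) (f := fun x : ℂ => ((x, 0) : ℂ × ℂ)) e5 a1
    exact (a3.pow k).div (a2.pow l) (pow_ne_zero _ e3)
  · obtain ⟨x, hx1, hx2⟩ := (hwne.and_eventually (isOpen_ball.mem_nhds (mem_ball_self hρ0) : ∀ᶠ x in 𝓝 (0 : ℂ), x ∈ ball (0 : ℂ) ρ)).exists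
    refine ⟨x, hx2, ?_⟩
    obtain ⟨-, -, e3, -⟩ := hA (x, 0) (mem_ball_axis.2 hx2)
    exact div_ne_zero (pow_ne_zero _ hx1) (pow_ne_zero _ e3)
  · intro x hx
    obtain ⟨e1, e2, e3, e4, e5, e6, e7⟩ := hA (x, 0) (mem_ball_axis.2 hx)
    have e8 : 0 < ‖χ.σ (x, 0)‖ := norm_pos_iff.2 (χ.sigma_ne_zero hX e4)
    have e9 : 0 < ‖u (x, 0)‖ := norm_pos_iff.2 e3
    have e10 := real_axis (M := M) (k := k) (l := l) (d := d) hM hk (norm_nonneg (w (x, 0))) e8 e9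
    rw [norm_div, norm_pow, norm_pow]
    exact e10
  · show χ.q (g 0) ∈ ball (0 : ℂ × ℂ) ρ
    rw [hq0]
    exact mem_ball_self hρ0

end Pool.Agent.H22.WB
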