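import Pool.Agent.H22.WB.Tr

/-!
# WB Four: complements of arbitrary hypersurface sections in surfaces with nonpositively curved pseudo-lengths
-/

set_option autoImplicit false

open Topology Filter MvPolynomial Metric

noncomputable section

namespace Pool.Agent.H22.WB

open Pool.Agent.H17 (PN VanishesAt HolomorphicInto ZariskiClosedIn puncturedDisc)
open Pool.Agent.H62.FC (Homog)
open Pool.Agent.H62.SA (locVar OnBd IsProperMap)
open Pool.Agent.H17BP (Surface)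
open Pool.Agent.H17LG.Variety (FunField IsLogGeneralType)
open Pool.Agent.H13.SM (conTan cone)
open Pool.Agent.H36.BP (EN fs wd isCone_transport)
open Pool.Agent.H14.PP (IsCone)
open Pool.Agent.H14.KB (KobayashiHyperbolicModulo)
open Pool.Agent.H13.OT (OrderTwo)
open Pool.Agent.H17EF (projVar coneE LE prP prP_injective)
open Pool.Agent.H62.EF (pr Charts)
open Pool.Agent.H14.V (IsLift)
open Pool.Agent.H22.W (PseudoLength tan_entire)
open Pool.Agent.H5.BD (BC)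
open Pool.Agent.H22.WL (evF evF_diff evF_smul NoCurves NoBrodyL noBrodyL_of vanishesAt_lift mem_locVar_prod exists_lipschitz prod_hom)

/-- **Curves of order two which avoid the hypersurfaces are constant**, if there are no such curves of bounded distortion. -/
theorem orderTwo_of_noBC {N : ℕ} {X : Set (EN N)} {s : ℕ} {q : Fin s → EN N → ℂ} {d : Fin s → ℕ}
    (hX : IsCone X) (hch : Charts X) (n : PseudoLength X) (hq : ∀ i, Differentiable ℂ (q i))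
    (hhom : ∀ i, ∀ (c : ℂ) (x : EN N), q i (c • x) = c ^ d i * q i x) {I : Finset (Fin s)} (hD : NoBrodyL n q I)
    (hBC : ∀ c L : ℝ, 0 < c → 0 < L → ∀ F ∈ BC X c L, ∃ i z, q i (F z) = 0)
    {F : ℂ → EN N} (hF : Differentiable ℂ F) (hFX : ∀ z, F z ∈ X) (hFq : ∀ i z, q i (F z) ≠ 0)
    (hA : ∃ A : ℝ, ∀ r : ℝ, 0 < r → Real.circleAverage (fun z => Real.log ‖F z‖) 0 r ≤ A * (1 + r ^ 2)) :
    ∀ z, fs (F z) (deriv F z) = 0 := by
  obtain ⟨L, hL, hlip⟩ := exists_lipschitz hX n hq hhom hD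
  obtain ⟨c, hc, hlow⟩ := Pool.Agent.H22.W.exists_lower hX hch n one_pos
  by_contra hne
  obtain ⟨A, hA⟩ := hA
  obtain ⟨b, hb⟩ : ∃ b : ℝ, b = n.toFun (F 0) (deriv F 0) := ⟨_, rfl⟩
  have hconst : ∀ z, n.toFun (F z) (deriv F z) = b := fun z => by
    rw [hb]
    exact Pool.Agent.H22.W.const_length hX hch n hF hFX hA z 0
  have hb0 : 0 ≤ b := by
    rw [hb]
    exact n.nonneg _ _ (tan_entire hF hFX 0)
  have hscale : ∀ a : ℂ, Differentiable ℂ (fun z => F (0 + a * z)) ∧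
      ∀ z, n.toFun (F (0 + a * z)) (deriv (fun z => F (0 + a * z)) z) = ‖a‖ * b := fun a =>
    ⟨hF.comp ((differentiable_id.const_mul a).const_add 0), fun z => by rw [n.comp_affine hF hFX a 0 z, hconst]⟩
  rcases hb0.eq_or_lt with h0 | hpos
  · apply hne
    intro z₀
    by_contra hz₀
    have hfs0 : 0 ≤ fs (F z₀) (deriv F z₀) := Pool.Agent.H36.BP.fs_nonneg _ _
    have hpos : 0 < fs (F z₀) (deriv F z₀) := lt_of_le_of_ne hfs0 (Ne.symm hz₀)
    obtain ⟨a, ha⟩ : ∃ a : ℝ, a = (L + 1) / fs (F z₀) (deriv F z₀) := ⟨_, rfl⟩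
    have ha0 : 0 < a := by rw [ha]; positivity
    obtain ⟨hd', hv⟩ := hscale (a : ℂ)
    have h1 := hlip _ hd' (fun z => hFX _) (fun i z => hFq i _) (fun z => by rw [hv z, ← h0, mul_zero]; exact zero_le_one) (z₀ / a)
    have h2 : (0 + (a : ℂ) * (z₀ / a)) = z₀ := by
      have : (a : ℂ) ≠ 0 := by exact_mod_cast ha0.ne'
      field_simp
      ring
    have h3 : HasDerivAt (fun ζ : ℂ => 0 + (a : ℂ) * ζ) (a : ℂ) (z₀ / a) := by
      simpa using ((hasDerivAt_id (z₀ / (a : ℂ))).const_mul (a : ℂ)).const_add 0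
    have h4 : deriv (fun ζ => F (0 + (a : ℂ) * ζ)) (z₀ / a) = (a : ℂ) • deriv F (0 + (a : ℂ) * (z₀ / a)) :=
      ((hF (0 + (a : ℂ) * (z₀ / a))).hasDerivAt.scomp (z₀ / (a : ℂ)) h3).deriv
    rw [h4, h2, Pool.Agent.H36.BP.fs_smul_right, Complex.norm_real, Real.norm_of_nonneg ha0.le, ha,
      div_mul_cancel₀ _ hpos.ne'] at h1
    linarith
  · obtain ⟨hd', hv⟩ := hscale ((b⁻¹ : ℝ) : ℂ)
    have hv1 : ∀ z, n.toFun (F (0 + ((b⁻¹ : ℝ) : ℂ) * z)) (deriv (fun z => F (0 + ((b⁻¹ : ℝ) : ℂ) * z)) z) = 1 := fun z => by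
      rw [hv z, Complex.norm_real, Real.norm_of_nonneg (inv_pos.2 hpos).le, inv_mul_cancel₀ hpos.ne']
    have hBC' : (fun z => F (0 + ((b⁻¹ : ℝ) : ℂ) * z)) ∈ BC X c L :=
      ⟨hd', fun z => hFX _, fun z => ⟨hlow _ hd' (fun z => hFX _) hv1 z,
        hlip _ hd' (fun z => hFX _) (fun i z => hFq i _) (fun z => (hv1 z).le) z⟩⟩
    obtain ⟨i, z, hz⟩ := hBC c L hc hL _ hBC'
    exact hFq i _ hz

variable {N : ℕ} {P : Ideal (MvPolynomial (Fin (N + 1)) ℂ)} {s : ℕ} {G : Fin s → MvPolynomial (Fin (N + 1)) ℂ} {d : Fin s → ℕ}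

section

variable [P.IsPrime] {z : Fin 2 → FunField P}

theorem prod_notMem (hGP : ∀ i, G i ∉ P) : ∏ i, G i ∉ P := by
  intro h1
  obtain ⟨i, -, h2⟩ := (Ideal.IsPrime.prod_mem_iff (p := P)).1 h1
  exact hGP i h2

/-- **Entire curves of order two in the complement are constant.** -/
theorem orderTwo_log (hP : Homog P) (hz : IsTranscendenceBasis ℂ z)
    (hsm : ∀ y : Fin (N + 1) → ℂ, y ≠ 0 → (∀ Q ∈ P, eval y Q = 0) → Module.finrank ℂ (conTan P y) ≤ 3)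
    (hG : ∀ i, (G i).IsHomogeneous (d i)) (hd : ∑ i, d i ≠ 0) (hGP : ∀ i, G i ∉ P)
    (hgt : IsLogGeneralType (K := FunField P) (k := 2) (OnBd P fun _ : Fin 1 => ∏ i, G i)) {I : Finset (Fin s)} {n : PseudoLength (coneE P)}
    (h : NoCurves n G I) {f : ℂ → PN N} (hfo : OrderTwo f)
    (hfU : ∀ z, f z ∈ locVar P fun _ : Fin 1 => ∏ i, G i) (z w : ℂ) : f z = f w := by
  have hS : Surface (cone P) := Pool.Agent.H13.SM.surface_cone hP hz fun y hy => hsm y hy.1 hy.2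
  have hX : IsCone (coneE P) := isCone_transport (LE N) hS
  have hch : Charts (coneE P) := Pool.Agent.H17EF.charts hS
  obtain ⟨F₀, A, hF₀, hFf, hA⟩ := hfo
  obtain ⟨A', hA'⟩ := Pool.Agent.H14.V.average_toLp hF₀ (fun z => (hFf z).1) hA
  have hl : IsLift (fun z => (WithLp.toLp 2 (F₀ z) : EN N)) f := by
    refine ⟨?_, fun z => hFf z⟩
    exact (LE N).differentiable.comp hF₀
  have hBC : ∀ c L : ℝ, 0 < c → 0 < L → ∀ F ∈ BC (coneE P) c L, ∃ i z, evF (G i) (F z) = 0 := by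
    intro c L hc hL F hF
    obtain ⟨z, hz0⟩ := no_bc_proj hP hz hsm (prod_hom hG) hd (prod_notMem hGP) hgt hc hL hF
    unfold evF at hz0
    rw [map_prod, Finset.prod_eq_zero_iff] at hz0
    obtain ⟨i, -, hi⟩ := hz0
    exact ⟨i, z, hi⟩
  have h0 := orderTwo_of_noBC hX hch n (fun i => evF_diff (G i)) (fun i => evF_smul (hG i)) (noBrodyL_of hP hG h) hBC hl.1
    (fun z => (hl.mem_iff hP z).1 (mem_locVar_prod.1 (hfU z)).1)
    (fun i z h1 => (mem_locVar_prod.1 (hfU z)).2 i ((vanishesAt_lift hl (hG i) z).2 h1)) ⟨A', hA'⟩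
  apply prP_injective
  rw [hl.prP, hl.prP]
  exact Pool.Agent.H14.V.pr_const hl.1 (fun z => hl.ne_zero z) h0 z w

/-- **The four properties**, if the curves of order two are constant. -/
theorem four_of_orderTwo (hP : Homog P) (hz : IsTranscendenceBasis ℂ z)
    (hsm : ∀ y : Fin (N + 1) → ℂ, y ≠ 0 → (∀ Q ∈ P, eval y Q = 0) → Module.finrank ℂ (conTan P y) ≤ 3)
    (hG : ∀ i, (G i).IsHomogeneous (d i)) (hdu : ∑ i, d i ≠ 0) (hGP : ∀ i, G i ∉ P)
    (hgt : IsLogGeneralType (K := FunField P) (k := 2) (OnBd P fun _ : Fin 1 => ∏ i, G i))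
    (h : ∀ f : ℂ → PN N, OrderTwo f → (∀ z, f z ∈ locVar P fun _ : Fin 1 => ∏ i, G i) → ∀ z w, f z = f w) :
    (∅ : Set (PN N)) ≠ locVar P (fun _ : Fin 1 => ∏ i, G i) ∧
    (∀ f : ℂ → PN N, HolomorphicInto f puncturedDisc → (∀ z ∈ puncturedDisc, f z ∈ locVar P fun _ : Fin 1 => ∏ i, G i) →
      ∃ g : ℂ → PN N, HolomorphicInto g (Metric.ball 0 1) ∧ ∀ z ∈ puncturedDisc, g z = f z) ∧
    (∀ f : ℂ → PN N, HolomorphicInto f Set.univ → (∀ z, f z ∈ locVar P fun _ : Fin 1 => ∏ i, G i) → ∀ z w, f z = f w) ∧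
    (∀ (Q : Ideal (MvPolynomial (Fin (N + 1)) ℂ)) [Q.IsPrime], Homog Q → P ≤ Q → (locVar Q fun _ : Fin 1 => ∏ i, G i).Nonempty →
      ∀ w, 1 ≤ w → (∃ z : Fin w → FunField Q, IsTranscendenceBasis ℂ z) →
      IsLogGeneralType (OnBd Q (fun _ : Fin 1 => ∏ i, G i) (k := w))) ∧
    ∃ (Q : MvPolynomial (Fin (N + 1)) ℂ) (D : ℕ), Q.IsHomogeneous D ∧
      (∃ x ∈ locVar P (fun _ : Fin 1 => ∏ i, G i), ¬ VanishesAt Q x) ∧
      KobayashiHyperbolicModulo (locVar P fun _ : Fin 1 => ∏ i, G i) Q D := by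
  have hhom : (∏ i, G i).IsHomogeneous (∑ i, d i) := prod_hom hG
  have hproper : IsProperMap P (fun _ : Fin 1 => ∏ i, G i)
      (fun _ => (Fin.cons (∏ i, G i) (fun j : Fin (N + 1) => X j ^ (∑ i, d i)) : Fin (N + 1 + 1) → MvPolynomial (Fin (N + 1)) ℂ))
      (fun _ => ∑ i, d i) := by
    refine ⟨fun _ j => ?_, fun _ => rfl, fun m m' j => ?_, fun x _ => ?_⟩
    · refine Fin.cases ?_ (fun j => ?_) j
      · exact hhom
      · have h1 := (isHomogeneous_X ℂ j).pow (∑ i, d i)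
        rw [one_mul] at h1
        exact h1
    · rw [sub_self]
      exact P.zero_mem
    · obtain ⟨j, hj⟩ : ∃ j, x.rep j ≠ 0 := by
        by_contra hcon
        push Not at hcon
        exact x.rep_nonzero (funext hcon)
      refine ⟨0, j.succ, fun h1 => hj ?_⟩
      unfold VanishesAt at h1
      rw [Fin.cons_succ, map_pow, eval_X] at h1
      exact pow_eq_zero_iff hdu |>.1 h1
  have hX : ∃ i, (X i : MvPolynomial (Fin (N + 1)) ℂ) ∉ P := Pool.Agent.H62.FC.exists_X_notMem (r := 2) (by norm_num) ⟨z, hz⟩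
  have hprodP : ∏ i, G i ∉ P := by
    intro h1
    obtain ⟨i, -, h2⟩ := (Ideal.IsPrime.prod_mem_iff (p := P)).1 h1
    exact hGP i h2
  obtain ⟨x, hx, hxG⟩ := Pool.Agent.H17EF.exists_point hP hX hprodP hhom
  have hxU : x ∈ locVar P (fun _ : Fin 1 => ∏ i, G i) := ⟨hx, 0, hxG⟩
  have hne : (∅ : Set (PN N)) ≠ locVar P (fun _ : Fin 1 => ∏ i, G i) := fun h1 => by
    rw [← h1] at hxU
    exact hxU
  have hcl : ZariskiClosedIn (locVar P (fun _ : Fin 1 => ∏ i, G i)) (∅ : Set (PN N)) := by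
    refine ⟨{1}, fun R hR => ⟨0, by rw [Set.mem_singleton_iff.1 hR]; exact isHomogeneous_one _ _⟩, ?_⟩
    ext y
    constructor
    · exact fun h1 => absurd h1 (Set.notMem_empty y)
    · rintro ⟨-, h1⟩
      have h2 := h1 1 rfl
      unfold VanishesAt at h2
      rw [map_one] at h2
      exact absurd h2 one_ne_zero
  obtain ⟨hbr', hpic, Q, D, hQ, hQx, -, hkob⟩ := Pool.Agent.H62.SA.proper_main hP hz hsm hproper hgt hcl hne fun f _ hfo hfU ⟨z, w, hzw⟩ =>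
    absurd (h f hfo hfU z w) hzw
  have hbr : ∀ f : ℂ → PN N, HolomorphicInto f Set.univ → (∀ z, f z ∈ locVar P fun _ : Fin 1 => ∏ i, G i) → ∀ z w, f z = f w := by
    intro f hf hfU z w
    by_contra hzw
    exact hbr' f hf hfU ⟨z, w, hzw⟩ z
  refine ⟨hne, fun f hf hfU => hpic f hf hfU ⟨1 / 2, ?_, fun h1 => h1⟩, hbr, ?_, Q, D, hQ, hQx, hkob⟩
  · refine ⟨?_, ?_⟩
    · rw [mem_ball_zero_iff, norm_div, norm_one, Complex.norm_ofNat]
      norm_num
    · simp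
  · intro Q _ hQ hPQ ⟨y, hy⟩ w hw hz'
    exact Pool.Agent.H13.CV.strongly_of_brodyL P hP ⟨z, hz⟩ (G := fun _ : Fin 1 => ∏ i, G i) (fun _ => ⟨_, hhom⟩) hcl hgt
      (fun f hf hfU ⟨z, w, hzw⟩ => absurd (hbr f hf hfU z w) hzw) Q hQ hPQ (fun h1 => h1 hy) w hw hz'

/-- **The four properties.** -/
theorem four_log (hP : Homog P) (hz : IsTranscendenceBasis ℂ z)
    (hsm : ∀ y : Fin (N + 1) → ℂ, y ≠ 0 → (∀ Q ∈ P, eval y Q = 0) → Module.finrank ℂ (conTan P y) ≤ 3)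
    (hG : ∀ i, (G i).IsHomogeneous (d i)) (hd : ∑ i, d i ≠ 0) (hGP : ∀ i, G i ∉ P)
    (hgt : IsLogGeneralType (K := FunField P) (k := 2) (OnBd P fun _ : Fin 1 => ∏ i, G i)) {I : Finset (Fin s)}
    {n : PseudoLength (coneE P)} (h : NoCurves n G I) :
    (∅ : Set (PN N)) ≠ locVar P (fun _ : Fin 1 => ∏ i, G i) ∧
    (∀ f : ℂ → PN N, HolomorphicInto f puncturedDisc → (∀ z ∈ puncturedDisc, f z ∈ locVar P fun _ : Fin 1 => ∏ i, G i) →
      ∃ g : ℂ → PN N, HolomorphicInto g (Metric.ball 0 1) ∧ ∀ z ∈ puncturedDisc, g z = f z) ∧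
    (∀ f : ℂ → PN N, HolomorphicInto f Set.univ → (∀ z, f z ∈ locVar P fun _ : Fin 1 => ∏ i, G i) → ∀ z w, f z = f w) ∧
    (∀ (Q : Ideal (MvPolynomial (Fin (N + 1)) ℂ)) [Q.IsPrime], Homog Q → P ≤ Q → (locVar Q fun _ : Fin 1 => ∏ i, G i).Nonempty →
      ∀ w, 1 ≤ w → (∃ z : Fin w → FunField Q, IsTranscendenceBasis ℂ z) →
      IsLogGeneralType (OnBd Q (fun _ : Fin 1 => ∏ i, G i) (k := w))) ∧
    ∃ (Q : MvPolynomial (Fin (N + 1)) ℂ) (D : ℕ), Q.IsHomogeneous D ∧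
      (∃ x ∈ locVar P (fun _ : Fin 1 => ∏ i, G i), ¬ VanishesAt Q x) ∧
      KobayashiHyperbolicModulo (locVar P fun _ : Fin 1 => ∏ i, G i) Q D :=
  four_of_orderTwo hP hz hsm hG hd hGP hgt fun _ hfo hfU z w => orderTwo_log hP hz hsm hG hd hGP hgt h hfo hfU z w

end

end Pool.Agent.H22.WB
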