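import Pool.Agent.H36.BP.Defs

/-!
# WB Max: the maximum principle for sections of negative bundles
-/

set_option autoImplicit false

open Topology Filter Metric

namespace Pool.Agent.H22.WB

open Pool.Agent.H36.BP (EN fs wd)

variable {N : ℕ}

/-- If `‖H‖ ‖V‖ ^ m` has a local maximum then `V` has its values in a line. -/
theorem line_of_max {H : ℂ → ℂ} {V : ℂ → EN N} {m : ℕ} (hm : 0 < m) (hH : AnalyticAt ℂ H 0) (hH0 : H 0 ≠ 0) (hV : AnalyticAt ℂ V 0)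
    (hmax : ∀ᶠ z in 𝓝 (0 : ℂ), ‖H z‖ * ‖V z‖ ^ m ≤ ‖H 0‖ * ‖V 0‖ ^ m) : ∀ᶠ z in 𝓝 (0 : ℂ), ∃ a : ℂ, a ≠ 0 ∧ V z = a • V 0 := by
  obtain ⟨G, hG⟩ : ∃ G : ℂ → ℂ, G = fun z => H z / H 0 := ⟨_, rfl⟩
  have hGa : AnalyticAt ℂ G 0 := by
    rw [hG]
    exact hH.div analyticAt_const hH0
  have hG0 : G 0 = 1 := by
    rw [hG]
    exact div_self hH0
  obtain ⟨r, hr⟩ : ∃ r : ℂ → ℂ, r = fun z => G z ^ ((1 : ℂ) / m) := ⟨_, rfl⟩
  have hra : AnalyticAt ℂ r 0 := by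
    rw [hr]
    exact hGa.cpow analyticAt_const (by rw [hG0]; exact Complex.one_mem_slitPlane)
  have hr0 : r 0 = 1 := by
    rw [hr]
    simp only
    rw [hG0, Complex.one_cpow]
  have hrm : ∀ z, r z ^ m = G z := by
    intro z
    rw [hr]
    simp only
    rw [one_div, Complex.cpow_nat_inv_pow _ hm.ne']
  have hrne : ∀ᶠ z in 𝓝 (0 : ℂ), r z ≠ 0 := hra.continuousAt.eventually_ne (by rw [hr0]; exact one_ne_zero)
  obtain ⟨W, hW⟩ : ∃ W : ℂ → EN N, W = fun z => r z • V z := ⟨_, rfl⟩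
  have hWa : AnalyticAt ℂ W 0 := by
    rw [hW]
    exact hra.fun_smul hV
  have hW0 : W 0 = V 0 := by
    rw [hW]
    simp only
    rw [hr0, one_smul]
  have hHn : 0 < ‖H 0‖ := norm_pos_iff.2 hH0
  have hmax2 : IsLocalMax (norm ∘ W) 0 := by
    filter_upwards [hmax] with z hz
    show ‖W z‖ ≤ ‖W 0‖
    rw [hW0]
    refine (pow_le_pow_iff_left₀ (norm_nonneg _) (norm_nonneg _) hm.ne').1 ?_
    rw [hW]
    simp only
    rw [norm_smul, mul_pow, ← norm_pow, hrm, hG]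
    simp only
    rw [norm_div, div_mul_eq_mul_div, div_le_iff₀ hHn, mul_comm (‖V 0‖ ^ m)]
    exact hz
  have h1 : ∀ᶠ z in 𝓝 (0 : ℂ), DifferentiableAt ℂ W z := hWa.eventually_analyticAt.mono fun z hz => hz.differentiableAt
  have h2 := Complex.eventually_eq_of_isLocalMax_norm h1 hmax2
  filter_upwards [h2, hrne] with z hz hz2
  refine ⟨(r z)⁻¹, inv_ne_zero hz2, ?_⟩
  rw [hW0] at hz
  rw [← hz, hW]
  simp only
  rw [smul_smul, inv_mul_cancel₀ hz2, one_smul]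

end Pool.Agent.H22.WB
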