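import Pool.Agent.H22.WB.Ex
import Pool.Agent.H22.WB.Max
import Pool.Agent.H22.WL.Aff

/-!
# WB Main: there are no curves of bounded distortion in affine surfaces of log general type

The supremum of the values `tval` over the limit curves in the boundary is attained, and this contradicts the maximum principle.
-/

set_option autoImplicit false

open Topology Filter Metric

namespace Pool.Agent.H22.WB

open Pool.Agent.H36.BP (EN fs wd)
open Pool.Agent.H14.PP (IsCone Chart CurveAt Form IsOpenPart aCoef ACoef jac rho)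
open Pool.Agent.H62.EF (Charts pr)
open Pool.Agent.H5.BD (BC)
open Pool.Agent.H22.WL (LocLim)
open Pool.Agent.H36.BPL (PoleLE)

variable {N : ℕ} {X : Set (EN N)} {q : EN N → ℂ} {d M : ℕ} {c L : ℝ} {Ω : Form (Kq X q) M 1} {T : Set (EN N)} {α : ℝ}

theorem BChart.At.near (hX : IsCone X) {B : BChart Ω d α} {g : ℂ → EN N} {z : ℂ} (hg : CurveAt X g z) (h : B.At (g z)) :
    ∀ᶠ w in 𝓝 z, B.At (g w) := by
  have a0 := hg.2
  have a1 := hg.1.continuousAt.eventually_mem (B.χ.isOpen_U.mem_nhds h.2.1)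
  have a3 := (B.χ.curve hX hg h.2.1).1.continuousAt.eventually_mem (isOpen_ball.mem_nhds h.2.2)
  filter_upwards [a0, a1, a3] with z b0 b1 b3 using ⟨b0, b1, b3⟩

/-- the coordinates of a limit curve -/
theorem BChart.coords (hX : IsCone X) (hhom : ∀ (c : ℂ) (x : EN N), q (c • x) = c ^ d * q x) (hc : 0 < c)
    {B : BChart Ω d α} {g : ℂ → EN N} (hg : g ∈ Bd X q c L) {z : ℂ} (h : B.At (g z)) :
    AnalyticAt ℂ (fun w => (B.χ.q (g w)).1) z ∧ deriv (fun w => (B.χ.q (g w)).1) z ≠ 0 := by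
  have h1 := B.χ.curve hX (bc_curve hg.1 z) h.2.1
  have h2 : HasDerivAt (fun w => B.χ.q (g w)) (deriv (fun w => B.χ.q (g w)) z) z := h1.1.differentiableAt.hasDerivAt
  refine ⟨?_, ?_⟩
  · exact AnalyticAt.fun_comp (g := fun p : ℂ × ℂ => p.1) (f := fun w => B.χ.q (g w)) analyticAt_fst h1.1
  · have h3 : HasDerivAt (fun w => (B.χ.q (g w)).1) (deriv (fun w => B.χ.q (g w)) z).1 z := h2.fst
    have h4 : HasDerivAt (fun w => (B.χ.q (g w)).2) (deriv (fun w => B.χ.q (g w)) z).2 z := h2.snd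
    have h5 : HasDerivAt (fun w => (B.χ.q (g w)).2) 0 z := by
      refine (hasDerivAt_const z (0 : ℂ)).congr_of_eventuallyEq ?_
      filter_upwards [h.near hX (bc_curve hg.1 z)] with w hw using hw.snd hhom (hg.2.1 w)
    rw [h3.deriv]
    intro h6
    exact deriv_chart_ne hX B.χ (bc_curve hg.1 z) h.2.1 (ne_of_gt (lt_of_lt_of_le hc (hg.1.2.2 z).1)) (Prod.ext h6 (h4.unique h5))

theorem BChart.tval_translate (B : BChart Ω d α) (g : ℂ → EN N) (a : ℂ) :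
    B.tval (fun z => g (a + z)) = ‖deriv (fun w => (B.χ.q (g w)).1) a‖ * B.Γ (B.χ.q (g a)) := by
  unfold BChart.tval
  have h1 : deriv (fun z => (B.χ.q (g (a + z))).1) 0 = deriv (fun w => (B.χ.q (g w)).1) a := by
    have := deriv_comp_const_add (f := fun w => (B.χ.q (g w)).1) a 0
    rwa [add_zero] at this
  rw [h1]
  simp only [add_zero]

/-- the set of the values -/
def Vals (Ω : Form (Kq X q) M 1) (d : ℕ) (c L α : ℝ) : Set ℝ := {t | ∃ g ∈ Bd X q c L, ∃ B : BChart Ω d α, B.At (g 0) ∧ t = B.tval g}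

/-- limits of values are values -/
theorem vals_limit (hX : IsCone X) (hch : Charts X) (hq : ∀ x, AnalyticAt ℂ q x) (hhom : ∀ (c : ℂ) (x : EN N), q (c • x) = c ^ d * q x)
    (hM : 1 ≤ M) (hpole : PoleLE X (Kq X q) M Ω.toFun) (hΩ : Ω.NoZeroOff T)
    (hthin : ∀ χ : Chart X, ∃ᶠ p in 𝓝 (0 : ℂ × ℂ), q (χ.σ p) ≠ 0 ∧ χ.σ p ∉ T) (hc : 0 < c) (hL : 0 < L) {t : ℕ → ℝ}
    (ht : ∀ n, t n ∈ Vals Ω d c L α) :
    ∃ g ∈ Bd X q c L, ∃ B : BChart Ω d α, B.At (g 0) ∧ Tendsto t (hyperfilter ℕ : Filter ℕ) (𝓝 (B.tval g)) := by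
  have hqd : Differentiable ℂ q := fun x => (hq x).differentiableAt
  choose g hg B hB htB using ht
  obtain ⟨g', hg', hlim⟩ := Bd.limit hX hqd hhom hL (hyperfilter ℕ) Nat.hyperfilter_le_atTop hg
  obtain ⟨α', B', hB'⟩ := exists_bchart hX hch hq hhom hM hpole hΩ hthin hc hL hg'
  obtain ⟨h1, h2, h3⟩ := coord_lim B'.χ hlim hB'.2.1
  have hnear : ∀ᶠ n in (hyperfilter ℕ : Filter ℕ), B'.At (g n 0) := by
    filter_upwards [h1, h2.eventually (isOpen_ball.mem_nhds hB'.2.2)] with n e1 e2 using ⟨(hg n).1.2.1 0, e1, e2⟩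
  obtain ⟨n, hn⟩ := hnear.exists
  obtain rfl : α = α' := (hB n).alpha_eq hX hqd hhom hM hn ((hg n).2.1 0)
  refine ⟨g', hg', B', hB', ?_⟩
  have h4 : Tendsto (fun n => B'.tval (g n)) (hyperfilter ℕ : Filter ℕ) (𝓝 (B'.tval g')) := by
    unfold BChart.tval
    refine Tendsto.mul ?_ ?_
    · have e1 : ∀ f : ℂ → EN N, CurveAt X f 0 → f 0 ∈ B'.χ.U → deriv (fun z => (B'.χ.q (f z)).1) 0 = (deriv (fun z => B'.χ.q (f z)) 0).1 := by
        intro f hf hfU
        have e2 : HasDerivAt (fun w => B'.χ.q (f w)) (deriv (fun w => B'.χ.q (f w)) 0) 0 := (B'.χ.curve hX hf hfU).1.differentiableAt.hasDerivAt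
        have e3 : HasDerivAt (fun w => (B'.χ.q (f w)).1) (deriv (fun w => B'.χ.q (f w)) 0).1 0 := e2.fst
        exact e3.deriv
      rw [e1 g' (bc_curve hg'.1 0) hB'.2.1]
      refine (((continuous_fst.tendsto _).comp h3).norm).congr' ?_
      filter_upwards [h1] with n hn
      rw [e1 (g n) (bc_curve (hg n).1 0) hn]
      rfl
    · have e1 : ContinuousAt B'.Γ (B'.χ.q (g' 0)) := B'.cont.continuousAt (isOpen_ball.mem_nhds hB'.2.2)
      exact e1.tendsto.comp h2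
  refine h4.congr' ?_
  filter_upwards [hnear] with n hn
  rw [htB n]
  exact BChart.tval_eq hX hqd hhom hM (bc_curve (hg n).1 0) (Eventually.of_forall (hg n).2.1) (hB n) hn

/-- the maximum principle -/
theorem vals_max (hX : IsCone X) (hhom : ∀ (c : ℂ) (x : EN N), q (c • x) = c ^ d * q x) (hc : 0 < c) {g : ℂ → EN N}
    (hg : g ∈ Bd X q c L) (B : BChart Ω d α) (hB : B.At (g 0)) (hpos : 0 < B.tval g) (hmax : ∀ t ∈ Vals Ω d c L α, t ≤ B.tval g) : False := by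
  obtain ⟨γ, hγ⟩ : ∃ γ : ℂ → ℂ, γ = fun w => (B.χ.q (g w)).1 := ⟨_, rfl⟩
  have hnear := hB.near hX (bc_curve hg.1 0)
  obtain ⟨hγa, hγd⟩ := BChart.coords hX hhom hc hg hB
  rw [← hγ] at hγa hγd
  have hpt : ∀ z, B.At (g z) → B.χ.q (g z) = (γ z, 0) := fun z hz => by
    rw [hγ]
    exact prod_eq_fst (hz.snd hhom (hg.2.1 z))
  have hγb : ∀ z, B.At (g z) → γ z ∈ ball (0 : ℂ) B.ρ := fun z hz => by
    rw [← mem_ball_axis, ← hpt z hz]
    exact hz.2.2
  have h0b := hγb 0 hB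
  obtain ⟨H, hH⟩ : ∃ H : ℂ → ℂ, H = fun z => deriv γ z ^ B.E * B.h (γ z) := ⟨_, rfl⟩
  obtain ⟨V, hV⟩ : ∃ V : ℂ → EN N, V = fun z => B.χ.σ (γ z, 0) := ⟨_, rfl⟩
  have hHa : AnalyticAt ℂ H 0 := by
    rw [hH]
    exact (hγa.deriv.pow B.E).mul (AnalyticAt.fun_comp (g := B.h) (f := γ) (B.h_an _ h0b) hγa)
  have hVa : AnalyticAt ℂ V 0 := by
    rw [hV]
    exact AnalyticAt.fun_comp (g := B.χ.σ) (f := fun z => ((γ z, 0) : ℂ × ℂ)) (B.χ.σ_an _ (B.ball_two (mem_ball_axis.2 h0b)))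
      (hγa.prod analyticAt_const)
  have hval : ∀ z, B.At (g z) → (B.tval fun w => g (z + w)) ^ B.E = ‖H z‖ * ‖V z‖ ^ B.m := by
    intro z hz
    rw [B.tval_translate, mul_pow, hpt z hz, B.axis _ (hγb z hz), hH, hV, ← hγ]
    simp only
    rw [norm_mul, norm_pow]
    ring
  have h0 : (fun w => g (0 + w)) = g := by
    funext w
    rw [zero_add]
  have hval0 := hval 0 hB
  rw [h0] at hval0
  have hH0 : H 0 ≠ 0 := by
    intro h1
    rw [h1, norm_zero, zero_mul] at hval0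
    exact (pow_pos hpos B.E).ne' hval0
  have hle : ∀ᶠ z in 𝓝 (0 : ℂ), ‖H z‖ * ‖V z‖ ^ B.m ≤ ‖H 0‖ * ‖V 0‖ ^ B.m := by
    filter_upwards [hnear] with z hz
    rw [← hval z hz, ← hval0]
    have h1 : B.tval (fun w => g (z + w)) ∈ Vals Ω d c L α := ⟨_, Bd.translate hg z, B, by simpa only [add_zero] using hz, rfl⟩
    refine pow_le_pow_left₀ ?_ (hmax _ h1) B.E
    rw [B.tval_translate]
    exact mul_nonneg (norm_nonneg _) (B.nonneg _ hz.2.2)
  have hline := line_of_max B.m_pos hHa hH0 hVa hle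
  have hconst : ∀ᶠ z in 𝓝 (0 : ℂ), γ z = γ 0 := by
    filter_upwards [hline, hnear] with z hz hz2
    obtain ⟨a, ha, h1⟩ := hz
    have h2 := (B.χ.σ_mem _ (B.ball_two (mem_ball_axis.2 (hγb z hz2)))).2.2
    have h3 := B.χ.σ_mem _ (B.ball_two (mem_ball_axis.2 h0b))
    rw [hV] at h1
    simp only at h1
    rw [h1, B.χ.q_smul _ h3.2.1 a ha, h3.2.2] at h2
    exact (congrArg Prod.fst h2).symm
  apply hγd
  have h1 : γ =ᶠ[𝓝 0] fun _ => γ 0 := hconst
  rw [h1.deriv_eq, deriv_const]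

/-- **There are no limit curves in the boundary.** -/
theorem bd_empty (hX : IsCone X) (hch : Charts X) (hq : ∀ x, AnalyticAt ℂ q x) (hhom : ∀ (c : ℂ) (x : EN N), q (c • x) = c ^ d * q x)
    (hM : 1 ≤ M) (hpole : PoleLE X (Kq X q) M Ω.toFun) (hΩ : Ω.NoZeroOff T)
    (hthin : ∀ χ : Chart X, ∃ᶠ p in 𝓝 (0 : ℂ × ℂ), q (χ.σ p) ≠ 0 ∧ χ.σ p ∉ T) (hc : 0 < c) (hL : 0 < L) : ¬ (Bd X q c L).Nonempty := by
  rintro ⟨g, hg⟩
  obtain ⟨α, B, hB⟩ := exists_bchart hX hch hq hhom hM hpole hΩ hthin hc hL hg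
  -- a positive value
  obtain ⟨t, ht, ht0⟩ : ∃ t ∈ Vals Ω d c L α, 0 < t := by
    have hnear := hB.near hX (bc_curve hg.1 0)
    obtain ⟨hγa, hγd⟩ := BChart.coords hX hhom hc hg hB
    obtain ⟨γ, hγ⟩ : ∃ γ : ℂ → ℂ, γ = fun w => (B.χ.q (g w)).1 := ⟨_, rfl⟩
    rw [← hγ] at hγa hγd
    have hpt : ∀ z, B.At (g z) → B.χ.q (g z) = (γ z, 0) := fun z hz => by
      rw [hγ]
      exact prod_eq_fst (hz.snd hhom (hg.2.1 z))
    have hγb : ∀ z, B.At (g z) → γ z ∈ ball (0 : ℂ) B.ρ := fun z hz => by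
      rw [← mem_ball_axis, ← hpt z hz]
      exact hz.2.2
    have h1 : Tendsto γ (𝓝[≠] 0) (𝓝[≠] (γ 0)) := hγa.differentiableAt.hasDerivAt.tendsto_nhdsNE hγd
    obtain ⟨z, hz1, hz2⟩ := ((h1.eventually (B.h_ev (hγb 0 hB))).and (hnear.filter_mono nhdsWithin_le_nhds)).exists
    refine ⟨_, ⟨_, Bd.translate hg z, B, by simpa only [add_zero] using hz2, rfl⟩, ?_⟩
    rw [B.tval_translate]
    have h2 := (BChart.coords hX hhom hc hg hz2).2
    have h3 : B.Γ (B.χ.q (g z)) ≠ 0 := by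
      rw [hpt z hz2]
      exact (B.axis_ne hX (hγb z hz2)).2 hz1
    exact mul_pos (norm_pos_iff.2 h2) (lt_of_le_of_ne (B.nonneg _ hz2.2.2) (Ne.symm h3))
  have hlim := fun (t : ℕ → ℝ) (ht : ∀ n, t n ∈ Vals Ω d c L α) => vals_limit hX hch hq hhom hM hpole hΩ hthin hc hL ht
  have hbdd : BddAbove (Vals Ω d c L α) := by
    by_contra hcon
    rw [not_bddAbove_iff] at hcon
    choose t ht using fun n : ℕ => hcon n
    obtain ⟨g', hg', B', hB', h1⟩ := hlim t fun n => (ht n).1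
    have h2 : Tendsto t (hyperfilter ℕ : Filter ℕ) atTop := by
      refine tendsto_atTop_mono (fun n => (ht n).2.le) (tendsto_natCast_atTop_atTop.mono_left Nat.hyperfilter_le_atTop)
    exact not_tendsto_nhds_of_tendsto_atTop h2 _ h1
  obtain ⟨s, hs⟩ : ∃ s, s = sSup (Vals Ω d c L α) := ⟨_, rfl⟩
  have h1 : ∀ n : ℕ, ∃ t ∈ Vals Ω d c L α, s - ((n : ℝ) + 1)⁻¹ < t := by
    intro n
    refine exists_lt_of_lt_csSup ⟨t, ht⟩ ?_
    rw [← hs]
    have : 0 < ((n : ℝ) + 1)⁻¹ := by positivity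
    linarith
  choose u hu hu2 using h1
  obtain ⟨g', hg', B', hB', h2⟩ := hlim u hu
  have h3 : B'.tval g' = s := by
    refine tendsto_nhds_unique h2 ?_
    have h4 : Tendsto (fun n : ℕ => s - ((n : ℝ) + 1)⁻¹) (hyperfilter ℕ : Filter ℕ) (𝓝 (s - 0)) := by
      refine tendsto_const_nhds.sub ?_
      exact tendsto_inv_atTop_zero.comp ((tendsto_atTop_add_const_right _ _ tendsto_natCast_atTop_atTop).mono_left Nat.hyperfilter_le_atTop)
    rw [sub_zero] at h4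
    refine tendsto_of_tendsto_of_tendsto_of_le_of_le h4 tendsto_const_nhds (fun n => (hu2 n).le) fun n => ?_
    rw [hs]
    exact le_csSup hbdd (hu n)
  refine vals_max hX hhom hc hg' B' hB' ?_ fun t ht => ?_
  · rw [h3, hs]
    exact lt_of_lt_of_le ht0 (le_csSup hbdd ht)
  · rw [h3, hs]
    exact le_csSup hbdd ht

end Pool.Agent.H22.WB
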