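import Pool.Agent.H22.WB.Main

/-!
# WB NoBC: curves of bounded distortion, curves of order two, and discs in affine surfaces of log general type
-/

set_option autoImplicit false

open Topology Filter Metric

namespace Pool.Agent.H22.WB

open Pool.Agent.H36.BP (EN fs wd)
open Pool.Agent.H14.PP (IsCone Chart CurveAt Form IsOpenPart)
open Pool.Agent.H62.EF (Charts pr)
open Pool.Agent.H5.BD (BC)
open Pool.Agent.H22.WL (exists_root fs_zero_of_line)
open Pool.Agent.H36.BPL (PoleLE)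

variable {N : ℕ} {X : Set (EN N)} {q : EN N → ℂ} {d M : ℕ} {c L : ℝ} {Ω : Form (Kq X q) M 1} {T : Set (EN N)}

/-- a curve which stays away from the hypersurface has derivative zero -/
theorem liouville_away (hq : Differentiable ℂ q) (hd : d ≠ 0) {F : ℂ → EN N} (hF : F ∈ BC X c L) (hc : 0 < c)
    (hF0 : ∀ z, q (F z) ≠ 0) {c₀ : ℝ} (hc₀ : 0 < c₀) (h1 : ∀ z, c₀ * ‖F z‖ ^ d ≤ ‖q (F z)‖) : False := by
  obtain ⟨e, he, he0, hed⟩ := exists_root (d := d) (hq.comp hF.1) hF0 hd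
  obtain ⟨G, hG⟩ : ∃ G : ℂ → EN N, G = fun z => (e z)⁻¹ • F z := ⟨_, rfl⟩
  have hGd : Differentiable ℂ G := by
    rw [hG]
    exact (he.inv he0).smul hF.1
  have hbd : ∀ z, ‖G z‖ ^ d ≤ c₀⁻¹ := by
    intro z
    have h2 := h1 z
    have h3 : ‖e z‖ ^ d = ‖q (F z)‖ := by
      rw [← norm_pow, hed z]
      rfl
    rw [hG]
    simp only
    rw [norm_smul, norm_inv, mul_pow, inv_pow, h3]
    have h4 : 0 < ‖q (F z)‖ := norm_pos_iff.2 (hF0 z)
    rw [inv_mul_le_iff₀ h4, ← div_eq_mul_inv, le_div_iff₀ hc₀]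
    linarith
  have hbdd : Bornology.IsBounded (Set.range G) := by
    rw [isBounded_iff_forall_norm_le]
    refine ⟨max 1 c₀⁻¹, ?_⟩
    rintro _ ⟨z, rfl⟩
    by_contra hlt
    push Not at hlt
    have h5 : 1 ≤ ‖G z‖ := (le_max_left _ _).trans hlt.le
    have h6 : ‖G z‖ ≤ ‖G z‖ ^ d := le_self_pow₀ h5 hd
    have h7 := hbd z
    have h8 := (le_max_right (1 : ℝ) c₀⁻¹).trans_lt hlt
    linarith
  have hconst : ∀ z, G z = G 0 := fun z => hGd.apply_eq_apply_of_bounded hbdd z 0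
  have hline : ∀ z, F z = e z • G 0 := by
    intro z
    rw [← hconst z, hG]
    simp only
    rw [smul_smul, mul_inv_cancel₀ (he0 z), one_smul]
  have h9 := (hF.2.2 0).1
  rw [fs_zero_of_line he hline] at h9
  linarith

/-- **There are no curves of bounded distortion in affine surfaces of log general type.** -/
theorem no_bc (hX : IsCone X) (hch : Charts X) (hq : ∀ x, AnalyticAt ℂ q x) (hhom : ∀ (c : ℂ) (x : EN N), q (c • x) = c ^ d * q x)
    (hd : d ≠ 0) (hM : 1 ≤ M) (hpole : PoleLE X (Kq X q) M Ω.toFun) (hΩ : Ω.NoZeroOff T)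
    (hthin : ∀ χ : Chart X, ∃ᶠ p in 𝓝 (0 : ℂ × ℂ), q (χ.σ p) ≠ 0 ∧ χ.σ p ∉ T) (hc : 0 < c) (hL : 0 < L)
    {F : ℂ → EN N} (hF : F ∈ BC X c L) : ∃ z, q (F z) = 0 := by
  have hqd : Differentiable ℂ q := fun x => (hq x).differentiableAt
  by_contra hcon
  push Not at hcon
  obtain ⟨c₀, hc₀, h2⟩ : ∃ c₀ : ℝ, 0 < c₀ ∧ ∀ F ∈ BC X c L, (∀ z, q (F z) ≠ 0) → ∀ z, c₀ * ‖F z‖ ^ d ≤ ‖q (F z)‖ := by
    by_contra h
    push Not at h
    exact bd_empty hX hch hq hhom hM hpole hΩ hthin hc hL (Bd.exists_of_near hX hqd hhom hL h)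
  exact liouville_away hqd hd hF hc hcon hc₀ (h2 F hF hcon)

end Pool.Agent.H22.WB
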