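import Pool.Agent.H68.KR.T2
import Pool.Agent.H17BP.Div

/-!
# WB Ord: the order of a function of two variables along the axis `y = 0`
-/

set_option autoImplicit false

open Topology Filter Metric

namespace Pool.Agent.H22.WB

open Pool.Agent.H68.KR (t2 t2_eq_zero_iff t2_mul t2_congr t2_snd)

/-- An analytic function near the origin which is not identically zero is `y ^ k` times an analytic function which is not
identically zero on the axis `y = 0`. -/
theorem exists_order {f : ℂ × ℂ → ℂ} (hf : AnalyticAt ℂ f 0) (hne : ∃ᶠ p in 𝓝 (0 : ℂ × ℂ), f p ≠ 0) :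
    ∃ (k : ℕ) (u : ℂ × ℂ → ℂ), AnalyticAt ℂ u 0 ∧ (∀ᶠ p in 𝓝 (0 : ℂ × ℂ), f p = p.2 ^ k * u p) ∧
      ∃ᶠ x in 𝓝 (0 : ℂ), u (x, 0) ≠ 0 := by
  have key : ∀ (n : ℕ) (f : ℂ × ℂ → ℂ), AnalyticAt ℂ f 0 → (t2 f).order = n →
      ∃ (k : ℕ) (u : ℂ × ℂ → ℂ), AnalyticAt ℂ u 0 ∧ (∀ᶠ p in 𝓝 (0 : ℂ × ℂ), f p = p.2 ^ k * u p) ∧
        ∃ᶠ x in 𝓝 (0 : ℂ), u (x, 0) ≠ 0 := by
    intro n
    induction n with
    | zero =>
      intro f hf hn
      by_cases h : ∃ᶠ x in 𝓝 (0 : ℂ), f (x, 0) ≠ 0
      · exact ⟨0, f, hf, Eventually.of_forall fun p => by rw [pow_zero, one_mul], h⟩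
      · exfalso
        rw [not_frequently] at h
        obtain ⟨g, hg, hfg⟩ := Pool.Agent.H17BP.exists_div_y hf (h.mono fun x hx => not_not.1 hx)
        have h1 : t2 f = PowerSeries.X * t2 g := by
          rw [t2_congr hfg]
          simp only [smul_eq_mul]
          rw [t2_mul analyticAt_snd hg, t2_snd]
        rw [h1, PowerSeries.order_mul, PowerSeries.order_X] at hn
        have h2 : (1 : ℕ∞) ≤ ((0 : ℕ) : ℕ∞) := by
          rw [← hn]
          exact le_self_add
        simp at h2
    | succ n ih =>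
      intro f hf hn
      by_cases h : ∃ᶠ x in 𝓝 (0 : ℂ), f (x, 0) ≠ 0
      · exact ⟨0, f, hf, Eventually.of_forall fun p => by rw [pow_zero, one_mul], h⟩
      · rw [not_frequently] at h
        obtain ⟨g, hg, hfg⟩ := Pool.Agent.H17BP.exists_div_y hf (h.mono fun x hx => not_not.1 hx)
        have h1 : t2 f = PowerSeries.X * t2 g := by
          rw [t2_congr hfg]
          simp only [smul_eq_mul]
          rw [t2_mul analyticAt_snd hg, t2_snd]
        rw [h1, PowerSeries.order_mul, PowerSeries.order_X] at hn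
        have h2 : (t2 g).order = n := by
          have h3 : (t2 g).order + 1 = (n : ℕ∞) + 1 := by
            rw [add_comm, hn]
            push_cast
            rfl
          exact (ENat.add_left_injective_of_ne_top (by simp)) h3
        obtain ⟨k, u, hu, hgu, hne⟩ := ih g hg h2
        refine ⟨k + 1, u, hu, ?_, hne⟩
        filter_upwards [hfg, hgu] with p hp hp2
        rw [hp, hp2, smul_eq_mul, pow_succ]
        ring
  have h0 : t2 f ≠ 0 := fun h => by
    rw [t2_eq_zero_iff hf] at h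
    exact hne (h.mono fun p hp => not_not.2 hp)
  have h1 : (t2 f).order ≠ ⊤ := by
    rwa [Ne, PowerSeries.order_eq_top]
  obtain ⟨n, hn⟩ := ENat.ne_top_iff_exists.1 h1
  exact key n f hf hn.symm

end Pool.Agent.H22.WB
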