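import Pool.Agent.H22.WB.NoBC
import Pool.Agent.H22.WL.Proj

/-!
# WB Tr: no curves of bounded distortion in affine surfaces of log general type, in the projective space
-/

set_option autoImplicit false

open Topology Filter MvPolynomial Metric

noncomputable section

namespace Pool.Agent.H22.WB

open Pool.Agent.H17 (PN VanishesAt HolomorphicInto ZariskiClosedIn puncturedDisc)
open Pool.Agent.H62.FC (Homog)
open Pool.Agent.H62.SA (locVar OnBd locCone)
open Pool.Agent.H17BP (Surface IsForm NoZeros)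
open Pool.Agent.H17LG.Variety (FunField IsLogGeneralType)
open Pool.Agent.H13.SM (conTan cone)
open Pool.Agent.H36.BP (EN fs wd isCone_transport formT tan_transport)
open Pool.Agent.H14.PP (IsCone Chart Form)
open Pool.Agent.H17EF (projVar coneE LE)
open Pool.Agent.H62.EF (Charts)
open Pool.Agent.H36.BPL (PoleLE VanOff)
open Pool.Agent.H5.BD (BC)
open Pool.Agent.H22.WL (evF evF_diff evF_smul)

variable {N : ℕ}

/-- thin sets in charts -/
theorem thin_chart {X : Set (EN N)} {Q : EN N → ℂ} {D : ℕ} (hQ : ∀ (c : ℂ) (x : EN N), Q (c • x) = c ^ D * Q x)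
    (h : ∀ x ∈ X, ¬ ∀ᶠ y in 𝓝 x, y ∈ X → Q y = 0) (χ : Chart X) : ∃ᶠ p in 𝓝 (0 : ℂ × ℂ), Q (χ.σ p) ≠ 0 := by
  intro hcon
  have h02 : (0 : ℂ × ℂ) ∈ ball (0 : ℂ × ℂ) 2 := mem_ball_self two_pos
  obtain ⟨h1, h2, h3⟩ := χ.σ_mem 0 h02
  refine h _ h1 ?_
  have h4 : Tendsto χ.q (𝓝 (χ.σ 0)) (𝓝 0) := by
    have := (χ.q_an _ h2).continuousAt.tendsto
    rwa [h3] at this
  filter_upwards [h4.eventually hcon, χ.isOpen_U.mem_nhds h2] with y hy hyU hyX
  obtain ⟨-, c, -, h5⟩ := χ.surj y hyX hyU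
  rw [h5, hQ, not_not.1 hy, mul_zero]

/-- transport of the poles -/
theorem pole_transport {V : Type} [NormedAddCommGroup V] [NormedSpace ℂ V] (L : V ≃L[ℂ] EN N) {X K : Set V} {m j e : ℕ} {Ω : V → V → V → ℂ}
    (hΩ : IsForm K m j Ω) (h : PoleLE X K e Ω) : PoleLE (L.symm ⁻¹' X : Set (EN N)) (L.symm ⁻¹' K) e (formT L hΩ).toFun := by
  intro φ p hφ hX G hG hGg
  have h1 : AnalyticAt ℂ (fun y => L.symm (φ y)) p := ((L.symm : EN N →L[ℂ] V).analyticAt _).comp hφ
  obtain ⟨b, hb, hbe⟩ := h (fun y => L.symm (φ y)) p h1 hX G hG fun g hg => hGg g hg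
  refine ⟨b, hb, ?_⟩
  filter_upwards [hbe, hφ.eventually_analyticAt] with y hy hy2 hyK
  rw [hy hyK]
  have h3 : HasFDerivAt (fun y => L.symm (φ y)) ((L.symm : EN N →L[ℂ] V).comp (fderiv ℂ φ y)) y :=
    (L.symm : EN N →L[ℂ] V).hasFDerivAt.comp y hy2.differentiableAt.hasFDerivAt
  rw [h3.fderiv]
  rfl

theorem evF_analytic (Q : MvPolynomial (Fin (N + 1)) ℂ) (x : EN N) : AnalyticAt ℂ (evF Q) x := by
  have h := AnalyticAt.aeval_mvPolynomial (𝕜 := ℂ) (f := fun y : EN N => y.ofLp) (z := x) (fun i =>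
    (EuclideanSpace.proj (𝕜 := ℂ) i : EN N →L[ℂ] ℂ).analyticAt x) Q
  have h2 : AnalyticAt ℂ (fun y : EN N => eval y.ofLp Q) x := by simpa [MvPolynomial.aeval_eq_eval] using h
  exact h2

variable {P : Ideal (MvPolynomial (Fin (N + 1)) ℂ)} {G : MvPolynomial (Fin (N + 1)) ℂ} {d : ℕ}

theorem kq_eq : Kq (coneE P) (evF G) = (LE N).symm ⁻¹' (locCone P fun _ : Fin 1 => G) := by
  ext x
  constructor
  · rintro ⟨h1, h2⟩
    exact ⟨h1, 0, h2⟩
  · rintro ⟨h1, m, h2⟩
    exact ⟨h1, h2⟩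

section

variable [P.IsPrime] {z : Fin 2 → FunField P}

/-- **There are no curves of bounded distortion in affine surfaces of log general type.** -/
theorem no_bc_proj (hP : Homog P) (hz : IsTranscendenceBasis ℂ z)
    (hsm : ∀ y : Fin (N + 1) → ℂ, y ≠ 0 → (∀ Q ∈ P, eval y Q = 0) → Module.finrank ℂ (conTan P y) ≤ 3)
    (hG : G.IsHomogeneous d) (hd : d ≠ 0) (hGP : G ∉ P)
    (hgt : IsLogGeneralType (K := FunField P) (k := 2) (OnBd P fun _ : Fin 1 => G)) {c L : ℝ} (hc : 0 < c) (hL : 0 < L)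
    {F : ℂ → EN N} (hF : F ∈ BC (coneE P) c L) : ∃ z, evF G (F z) = 0 := by
  have hS : Surface (cone P) := Pool.Agent.H13.SM.surface_cone hP hz fun y hy => hsm y hy.1 hy.2
  have hX : IsCone (coneE P) := isCone_transport (LE N) hS
  have hch : Charts (coneE P) := Pool.Agent.H17EF.charts hS
  obtain ⟨M, Om, D₀, Q₀, hM, hQ₀, hQ₀P, hOm, hnz, hpole⟩ :=
    Pool.Agent.H62.SA.exists_formF_of_smooth P hP hz (Hf := fun _ : Fin 1 => G) (e := fun _ => d) (fun _ => hG) (fun y hy hyP => hsm y hy hyP) hgt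
  obtain ⟨T, hT⟩ : ∃ T : Set (EN N), T = {x | evF Q₀ x = 0} := ⟨_, rfl⟩
  have hform : ∃ Ω : Form (Kq (coneE P) (evF G)) M 1, PoleLE (coneE P) (Kq (coneE P) (evF G)) M Ω.toFun ∧ Ω.NoZeroOff T := by
    rw [kq_eq]
    refine ⟨formT (LE N) hOm, pole_transport (LE N) hOm hpole, ?_⟩
    intro x hx hxT v w hv hw hind
    refine hnz ((LE N).symm x) hx ?_ _ (tan_transport (LE N) hv) _ (tan_transport (LE N) hw) ?_
    · rintro ⟨h1, h2⟩
      apply hxT
      rw [hT]
      exact h2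
    · have h3 := hind.map' ((LE N).symm : EN N →ₗ[ℂ] (Fin (N + 1) → ℂ)) (LinearMap.ker_eq_bot.2 (LE N).symm.injective)
      have h4 : (((LE N).symm : EN N →ₗ[ℂ] (Fin (N + 1) → ℂ)) ∘ ![x, v, w] : Fin 3 → Fin (N + 1) → ℂ) =
          ![(LE N).symm x, (LE N).symm v, (LE N).symm w] := by
        funext i
        fin_cases i <;> rfl
      rw [h4] at h3
      exact h3
  obtain ⟨Ω, hΩp, hΩz⟩ := hform
  refine no_bc hX hch (evF_analytic G) (evF_smul hG) hd hM hΩp hΩz ?_ hc hL hF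
  intro χ
  have hGQ : (G * Q₀).IsHomogeneous (d + D₀) := hG.mul hQ₀
  have hGQP : G * Q₀ ∉ P := fun h => by
    rcases (Ideal.IsPrime.mem_or_mem ‹P.IsPrime› h) with h1 | h1
    · exact hGP h1
    · exact hQ₀P h1
  have h1 := thin_chart (X := coneE P) (evF_smul hGQ) (fun x hx hev => by
    obtain ⟨σ, τ, hcc, h0⟩ := hS.chart ((LE N).symm x) hx
    have h1 := Pool.Agent.H13.SM.frequently_ne_zero hP hz (fun y hy => hsm y hy.1 hy.2) hcc hGQ hGQP
    apply h1
    have h2 : Tendsto (fun p => (LE N) (σ p)) (𝓝 (0 : ℂ × ℂ)) (𝓝 x) := by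
      have h3 : ContinuousAt (fun p => (LE N) (σ p)) 0 := (LE N).continuous.continuousAt.comp hcc.σ_an.continuousAt
      have h4 := h3.tendsto
      rw [h0, ContinuousLinearEquiv.apply_symm_apply] at h4
      exact h4
    filter_upwards [h2.eventually hev, hcc.σ_mem] with p hp hp'
    have h5 : (LE N) (σ p) ∈ coneE P := by
      show (LE N).symm ((LE N) (σ p)) ∈ cone P
      rw [ContinuousLinearEquiv.symm_apply_apply]
      exact hp'
    have h6 := hp h5
    rw [not_not]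
    exact h6) χ
  refine h1.mono fun p hp => ?_
  have h2 : evF G (χ.σ p) * evF Q₀ (χ.σ p) ≠ 0 := by
    intro h3
    apply hp
    unfold evF at h3 ⊢
    rw [map_mul]
    exact h3
  refine ⟨left_ne_zero_of_mul h2, ?_⟩
  rw [hT]
  exact right_ne_zero_of_mul h2

end

end Pool.Agent.H22.WB
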